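import Mathlib

/-!
Basic facts on discrete linear groups acting on salient convex cones, and rational polyhedral
fundamental domains.
-/

open Set Topology

namespace Pool.Agent.Lib.Pad47bb

variable {V : Type*} [NormedAddCommGroup V] [NormedSpace ℝ V]

/-- `P` is a rational polyhedral cone with respect to the lattice `L`: the cone generated by a
finite set of vectors of `L`. -/
def IsRatPoly (L : Submodule ℤ V) (P : PointedCone ℝ V) : Prop :=
  ∃ s : Finset V, (s : Set V) ⊆ (L : Set V) ∧ P = PointedCone.hull ℝ (s : Set V)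

/-- `P` is a fundamental domain for the action of the linear group `Γ` on the cone `K`: the
translates of `P` cover exactly `K`, and the interior of `P` is disjoint from the interior of
`g P` for every `g ≠ 1` in `Γ`. -/
def IsFundDomain (Γ : Subgroup (V ≃ₗ[ℝ] V)) (K P : PointedCone ℝ V) : Prop :=
  (K : Set V) = (⋃ g ∈ Γ, (g : V → V) '' (P : Set V)) ∧
    ∀ g ∈ Γ, g ≠ 1 → interior (P : Set V) ∩ interior ((g : V → V) '' (P : Set V)) = ∅

/-- `Γ` has a rational polyhedral fundamental domain on `K`. -/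
def HasRPFD (L : Submodule ℤ V) (Γ : Subgroup (V ≃ₗ[ℝ] V)) (K : PointedCone ℝ V) : Prop :=
  ∃ P : PointedCone ℝ V, IsRatPoly L P ∧ IsFundDomain Γ K P

section positive

variable [FiniteDimensional ℝ V]

theorem exists_pos (K : PointedCone ℝ V)
    (hs : ∀ x ∈ closure (K : Set V), -x ∈ closure (K : Set V) → x = 0) :
    ∃ f : V →L[ℝ] ℝ, ∀ x ∈ closure (K : Set V), x ≠ 0 → 0 < f x := by
  classical
  let C : ProperCone ℝ V := ⟨PointedCone.closure K, isClosed_closure⟩
  have hC : ∀ x, x ∈ C ↔ x ∈ closure (K : Set V) := fun x => Iff.rfl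
  have hcomp : IsCompact (closure (K : Set V) ∩ Metric.sphere 0 1) :=
    (isCompact_sphere 0 1).inter_left isClosed_closure
  have key : ∀ x ∈ closure (K : Set V) ∩ Metric.sphere 0 1,
      ∃ f : V →L[ℝ] ℝ, (∀ y ∈ closure (K : Set V), 0 ≤ f y) ∧ 0 < f x := by
    intro x hx
    have hx0 : x ≠ 0 := by
      rintro rfl
      have := hx.2
      simp at this
    have hnot : -x ∉ C := by
      intro h
      exact hx0 (hs x hx.1 ((hC _).1 h))
    obtain ⟨f, hf, hfx⟩ := C.hyperplane_separation_point hnot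
    refine ⟨f, fun y hy => hf y ((hC y).2 hy), ?_⟩
    simpa using hfx
  choose! f hf0 hfx using key
  -- open cover
  obtain ⟨t, hcov⟩ := hcomp.elim_nhds_subcover'
    (fun x _ => {y | 0 < f x y})
    (fun x hx => by
      have : IsOpen {y | 0 < f x y} := isOpen_lt continuous_const (f x).continuous
      exact this.mem_nhds (hfx x hx))
  refine ⟨∑ x ∈ t, f x, ?_⟩
  intro x hx hx0
  have hnx : 0 < ‖x‖ := norm_pos_iff.2 hx0
  have hmem : (‖x‖⁻¹) • x ∈ closure (K : Set V) ∩ Metric.sphere 0 1 := by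
    constructor
    · have := (PointedCone.closure K).smul_mem (r := ‖x‖⁻¹) (by positivity) (x := x) hx
      exact this
    · simp [norm_smul, hnx.ne']
  have h1 := hcov hmem
  simp only [mem_iUnion] at h1
  obtain ⟨i, hit, hi⟩ := h1
  have hi' : 0 < f i (‖x‖⁻¹ • x) := hi
  rw [map_smul, smul_eq_mul] at hi'
  have hi2 : 0 < f i x := by
    have := mul_pos hnx hi'
    rwa [← mul_assoc, mul_inv_cancel₀ hnx.ne', one_mul] at this
  rw [sum_apply]
  refine Finset.sum_pos' (fun j _ => hf0 j j.2 x hx) ⟨i, hit, hi2⟩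

theorem exists_bound (K : PointedCone ℝ V) (f : V →L[ℝ] ℝ)
    (hf : ∀ x ∈ closure (K : Set V), x ≠ 0 → 0 < f x) :
    ∃ ε : ℝ, 0 < ε ∧ ∀ x ∈ closure (K : Set V), ε * ‖x‖ ≤ f x := by
  have hcomp : IsCompact (closure (K : Set V) ∩ Metric.sphere 0 1) :=
    (isCompact_sphere 0 1).inter_left isClosed_closure
  have norm_mem : ∀ x ∈ closure (K : Set V), x ≠ 0 →
      (‖x‖⁻¹) • x ∈ closure (K : Set V) ∩ Metric.sphere 0 1 := by
    intro x hx hx0
    have hnx : 0 < ‖x‖ := norm_pos_iff.2 hx0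
    constructor
    · have := (PointedCone.closure K).smul_mem (r := ‖x‖⁻¹) (by positivity) (x := x) hx
      exact this
    · simp [norm_smul, hnx.ne']
  rcases (closure (K : Set V) ∩ Metric.sphere 0 1).eq_empty_or_nonempty with he | hne
  · refine ⟨1, one_pos, fun x hx => ?_⟩
    by_cases hx0 : x = 0
    · simp [hx0]
    · have := norm_mem x hx hx0
      rw [he] at this
      exact this.elim
  · obtain ⟨y, hy, hmin⟩ := hcomp.exists_isMinOn hne f.continuous.continuousOn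
    have hy0 : y ≠ 0 := by
      rintro rfl
      have := hy.2
      simp at this
    refine ⟨f y, hf y hy.1 hy0, fun x hx => ?_⟩
    by_cases hx0 : x = 0
    · simp [hx0]
    · have h1 := hmin (norm_mem x hx hx0)
      have hnx : 0 < ‖x‖ := norm_pos_iff.2 hx0
      have h2 : f y ≤ ‖x‖⁻¹ * f x := by
        have : f y ≤ f (‖x‖⁻¹ • x) := h1
        rwa [map_smul, smul_eq_mul] at this
      have h3 := mul_le_mul_of_nonneg_right h2 hnx.le
      rwa [mul_assoc, mul_comm (f x), ← mul_assoc, inv_mul_cancel₀ hnx.ne', one_mul] at h3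

variable (L : Submodule ℤ V) [DiscreteTopology L]

theorem finite_of_bounded (M : ℝ) : {x : V | x ∈ L ∧ ‖x‖ ≤ M}.Finite := by
  have h : IsClosed (L : Set V) := by
    have : IsClosed (L.toAddSubgroup : Set V) := by
      have : DiscreteTopology L.toAddSubgroup := inferInstanceAs (DiscreteTopology L)
      exact AddSubgroup.isClosed_of_discrete
    exact this
  have := Metric.finite_isBounded_inter_isClosed (s := (L : Set V)) (K := Metric.closedBall 0 M)
    (DiscreteTopology.isDiscrete) Metric.isBounded_closedBall h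
  refine this.subset ?_
  intro x hx
  exact ⟨by simpa using hx.2, hx.1⟩


variable [IsZLattice ℝ L]

omit [FiniteDimensional ℝ V] in
/-- An element `g` of the group is determined by its values on the lattice. -/
theorem eq_of_eqOn_lattice {g h : V ≃ₗ[ℝ] V} (hgh : ∀ x ∈ L, g x = h x) : g = h := by
  have hspan := IsZLattice.span_top (K := ℝ) (L := L)
  have : (g : V →ₗ[ℝ] V) = (h : V →ₗ[ℝ] V) :=
    LinearMap.ext_on (s := (L : Set V)) hspan (fun x hx => hgh x hx)
  exact LinearEquiv.toLinearMap_injective this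

/-- Finiteness: only finitely many lattice automorphisms `g` preserving `K` satisfy
`f (g z) ≤ M`, when `z` is an interior point and `f` is positive. -/
theorem finite_le (K : PointedCone ℝ V) (Γ : Set (V ≃ₗ[ℝ] V))
    (hL : ∀ g ∈ Γ, ∀ x ∈ L, g x ∈ L) (hK : ∀ g ∈ Γ, ∀ x ∈ K, g x ∈ K)
    (f : V →L[ℝ] ℝ) (hf : ∀ x ∈ closure (K : Set V), x ≠ 0 → 0 < f x)
    (z : V) (hz : z ∈ interior (K : Set V)) (M : ℝ) :
    {g : V ≃ₗ[ℝ] V | g ∈ Γ ∧ f (g z) ≤ M}.Finite := by
  classical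
  obtain ⟨ε, hε, hεf⟩ := exists_bound K f hf
  obtain ⟨δ, hδ, hball⟩ := Metric.isOpen_iff.1 isOpen_interior z hz
  have hmem : ∀ y, ‖y‖ < δ → z + y ∈ K := by
    intro y hy
    exact interior_subset (hball (by simpa [Metric.mem_ball, dist_eq_norm] using hy))
  -- a lattice basis
  let b₀ := Module.Free.chooseBasis ℤ L
  let b := b₀.ofZLatticeBasis ℝ L
  have hbL : ∀ i, b i ∈ L := fun i => by
    have : b i = (b₀ i : V) := b₀.ofZLatticeBasis_apply ℝ L i
    rw [this]; exact (b₀ i).2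
  -- rescale
  obtain ⟨c, hc0, hc⟩ : ∃ c : ℝ, 0 < c ∧ ∀ i, ‖c • b i‖ < δ := by
    refine ⟨δ / (2 * (1 + ∑ i, ‖b i‖)), by positivity, fun i => ?_⟩
    have h1 : ‖b i‖ ≤ ∑ i, ‖b i‖ :=
      Finset.single_le_sum (f := fun i => ‖b i‖) (fun j _ => norm_nonneg _) (Finset.mem_univ i)
    have h2 : 0 ≤ ∑ i, ‖b i‖ := Finset.sum_nonneg fun j _ => norm_nonneg _
    rw [norm_smul, Real.norm_of_nonneg (by positivity), div_mul_eq_mul_div,
      div_lt_iff₀ (by positivity)]
    nlinarith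
  -- bound on the values of `g` on the basis
  set B : ℝ := (3 * |M| + 3 * |M|) / (ε * c) with hB
  have hbound : ∀ g ∈ {g : V ≃ₗ[ℝ] V | g ∈ Γ ∧ f (g z) ≤ M}, ∀ i,
      g (b i) ∈ {x : V | x ∈ L ∧ ‖x‖ ≤ B} := by
    rintro g ⟨hg, hgM⟩ i
    refine ⟨hL g hg _ (hbL i), ?_⟩
    have hz1 : z + c • b i ∈ K := hmem _ (hc i)
    have hz2 : z - c • b i ∈ K := by
      have := hmem (-(c • b i)) (by rw [norm_neg]; exact hc i)
      simpa [sub_eq_add_neg] using this
    have hz0 : z ∈ K := interior_subset hz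
    have k1 := subset_closure (hK g hg _ hz1)
    have k2 := subset_closure (hK g hg _ hz2)
    have k0 := subset_closure (hK g hg _ hz0)
    have n1 := hεf _ k1
    have n2 := hεf _ k2
    have n0 := hεf _ k0
    have e1 : f (g (z + c • b i)) + f (g (z - c • b i)) = 2 * f (g z) := by
      rw [← map_add, ← map_add]
      have : z + c • b i + (z - c • b i) = (2 : ℝ) • z := by
        rw [two_smul]; abel
      rw [this, map_smul, map_smul, smul_eq_mul]
    have hMabs : M ≤ |M| := le_abs_self M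
    have p2 : 0 ≤ f (g (z - c • b i)) := le_trans (by positivity) n2
    have u1 : ε * ‖g (z + c • b i)‖ ≤ 2 * |M| := by linarith
    have u0 : ε * ‖g z‖ ≤ |M| := by linarith
    have h3 : c * ‖g (b i)‖ ≤ ‖g (z + c • b i)‖ + ‖g z‖ := by
      have : c • g (b i) = g (z + c • b i) - g z := by
        rw [map_add, map_smul]; abel
      calc c * ‖g (b i)‖ = ‖c • g (b i)‖ := by
            rw [norm_smul, Real.norm_of_nonneg hc0.le]
        _ = ‖g (z + c • b i) - g z‖ := by rw [this]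
        _ ≤ _ := norm_sub_le _ _
    rw [hB, le_div_iff₀ (by positivity)]
    have h4 : ‖g (b i)‖ * (ε * c) = ε * (c * ‖g (b i)‖) := by ring
    rw [h4]
    have h5 : ε * (c * ‖g (b i)‖) ≤ ε * (‖g (z + c • b i)‖ + ‖g z‖) :=
      mul_le_mul_of_nonneg_left h3 hε.le
    have h6 : (0 : ℝ) ≤ |M| := abs_nonneg M
    nlinarith
  have hfin := finite_of_bounded L B
  -- injectivity of the restriction
  have hfin2 : (Set.pi Set.univ (fun _ : Module.Free.ChooseBasisIndex ℤ L =>
      {x : V | x ∈ L ∧ ‖x‖ ≤ B})).Finite := Set.Finite.pi fun _ => hfin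
  refine Set.Finite.of_finite_image (f := fun g : V ≃ₗ[ℝ] V => fun i => g (b i)) ?_ ?_
  · refine hfin2.subset ?_
    rintro _ ⟨g, hg, rfl⟩ i _
    exact hbound g hg i
  · intro g _ h _ hgh
    apply LinearEquiv.toLinearMap_injective
    exact b.ext fun i => congrFun hgh i

/-- Common denominators. -/
theorem exists_common_denom {ι : Type*} [Fintype ι] (q : ι → ℚ) :
    ∃ N : ℕ, 0 < N ∧ ∀ i, ∃ n : ℤ, (N : ℝ) * (q i : ℝ) = n := by
  classical
  refine ⟨∏ i, (q i).den, Finset.prod_pos fun i _ => (q i).pos, fun i => ?_⟩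
  obtain ⟨k, hk⟩ : (q i).den ∣ ∏ i, (q i).den := Finset.dvd_prod_of_mem _ (Finset.mem_univ i)
  refine ⟨k * (q i).num, ?_⟩
  rw [hk]
  push_cast
  have h1 : ((q i).den : ℝ) * (q i : ℝ) = (q i).num := by
    have := Rat.den_mul_eq_num (q i)
    exact_mod_cast this
  calc ((q i).den : ℝ) * k * (q i : ℝ) = k * (((q i).den : ℝ) * (q i : ℝ)) := by ring
    _ = _ := by rw [h1]

/-- There is a functional, integral on `L`, positive on `closure K \ {0}`, whose stabilizer in
`Γ` is trivial. -/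
theorem exists_functional (K : PointedCone ℝ V) (Γ : Subgroup (V ≃ₗ[ℝ] V))
    (hL : ∀ g ∈ Γ, ∀ x ∈ L, g x ∈ L) (hK : ∀ g ∈ Γ, ∀ x ∈ K, g x ∈ K)
    (hs : ∀ x ∈ closure (K : Set V), -x ∈ closure (K : Set V) → x = 0)
    (hint : (interior (K : Set V)).Nonempty) :
    ∃ f : V →L[ℝ] ℝ, (∀ x ∈ closure (K : Set V), x ≠ 0 → 0 < f x) ∧
      (∀ x ∈ L, ∃ n : ℤ, f x = n) ∧ (∀ g ∈ Γ, (∀ x, f (g x) = f x) → g = 1) := by
  classical
  obtain ⟨z, hz⟩ := hint
  obtain ⟨f₀, hf₀⟩ := exists_pos K hs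
  obtain ⟨ε, hε, hεf⟩ := exists_bound K f₀ hf₀
  have hzK : z ∈ K := interior_subset hz
  set M' : ℝ := ‖f₀‖ * ((‖f₀‖ + ε) * ‖z‖ * (2 / ε)) with hM'
  have hG₀ := finite_le L K (Γ : Set (V ≃ₗ[ℝ] V)) hL hK f₀ hf₀ z hz M'
  -- functionals near `f₀`
  have hnear : ∀ h : V →L[ℝ] ℝ, ‖h - f₀‖ < ε / 2 →
      (∀ x ∈ closure (K : Set V), (ε / 2) * ‖x‖ ≤ h x) ∧
      ∀ g ∈ Γ, (∀ x, h (g x) = h x) → g ∈ {g : V ≃ₗ[ℝ] V | g ∈ (Γ : Set (V ≃ₗ[ℝ] V)) ∧
        f₀ (g z) ≤ M'} := by
    intro h hh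
    have hpos : ∀ x ∈ closure (K : Set V), (ε / 2) * ‖x‖ ≤ h x := by
      intro x hx
      have h1 := hεf x hx
      have h2 : |(h - f₀) x| ≤ ‖h - f₀‖ * ‖x‖ := by
        rw [← Real.norm_eq_abs]; exact (h - f₀).le_opNorm x
      have h3 : ‖h - f₀‖ * ‖x‖ ≤ (ε / 2) * ‖x‖ :=
        mul_le_mul_of_nonneg_right hh.le (norm_nonneg _)
      have h4 : (h - f₀) x = h x - f₀ x := rfl
      rw [h4] at h2
      have h5 := neg_abs_le (h x - f₀ x)
      nlinarith
    refine ⟨hpos, fun g hg hgx => ⟨hg, ?_⟩⟩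
    have hgz : g z ∈ closure (K : Set V) := subset_closure (hK g hg z hzK)
    have h1 := hpos _ hgz
    rw [hgx z] at h1
    have h2 : h z ≤ (‖f₀‖ + ε) * ‖z‖ := by
      calc h z ≤ ‖h‖ * ‖z‖ := le_trans (le_abs_self _) (by
              rw [← Real.norm_eq_abs]; exact h.le_opNorm z)
        _ ≤ (‖f₀‖ + ε) * ‖z‖ := by
            apply mul_le_mul_of_nonneg_right _ (norm_nonneg _)
            have : ‖h‖ ≤ ‖h - f₀‖ + ‖f₀‖ := by
              have := norm_add_le (h - f₀) f₀
              rwa [sub_add_cancel] at this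
            linarith
    have h3 : ‖g z‖ ≤ (‖f₀‖ + ε) * ‖z‖ * (2 / ε) := by
      rw [mul_div_assoc', le_div_iff₀ hε]
      nlinarith
    calc f₀ (g z) ≤ ‖f₀‖ * ‖g z‖ := le_trans (le_abs_self _) (by
              rw [← Real.norm_eq_abs]; exact f₀.le_opNorm _)
      _ ≤ M' := mul_le_mul_of_nonneg_left h3 (norm_nonneg _)
  -- coordinates
  let b₀ := Module.Free.chooseBasis ℤ L
  let b := b₀.ofZLatticeBasis ℝ L
  let Φ : (Module.Free.ChooseBasisIndex ℤ L → ℝ) →L[ℝ] (V →L[ℝ] ℝ) :=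
    ∑ i, (ContinuousLinearMap.proj (R := ℝ) (φ := fun _ => ℝ) i).smulRight
      (LinearMap.toContinuousLinearMap (b.coord i))
  have hΦ : ∀ c x, Φ c x = ∑ i, c i * b.repr x i := by
    intro c x
    simp [Φ]
  have hΦ0 : Φ (fun i => f₀ (b i)) = f₀ := by
    ext x
    rw [hΦ]
    conv_rhs => rw [← b.sum_repr x, map_sum]
    refine Finset.sum_congr rfl fun i _ => ?_
    rw [map_smul, smul_eq_mul, mul_comm]
  let U : Set (Module.Free.ChooseBasisIndex ℤ L → ℝ) := {c | ‖Φ c - f₀‖ < ε / 2}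
  have hUo : IsOpen U := isOpen_lt (by fun_prop) continuous_const
  have hUne : U.Nonempty := ⟨fun i => f₀ (b i), by
    show ‖Φ _ - f₀‖ < ε / 2
    rw [hΦ0]; simpa using hε⟩
  -- the bad subspaces
  let W : (V ≃ₗ[ℝ] V) → Submodule ℝ (Module.Free.ChooseBasisIndex ℤ L → ℝ) := fun g =>
    { carrier := {c | ∀ x, Φ c (g x) = Φ c x}
      add_mem' := by
        intro c d hc hd x
        have h1 := hc x
        have h2 := hd x
        simp only [map_add, add_apply, h1, h2]
      zero_mem' := by intro x; simp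
      smul_mem' := by
        intro r c hc x
        have h1 := hc x
        simp only [map_smul, smul_apply, h1] }
  have hWmem : ∀ g c, c ∈ W g ↔ ∀ x, Φ c (g x) = Φ c x := fun g c => Iff.rfl
  have hWproper : ∀ g, g ≠ 1 → W g ≠ ⊤ := by
    intro g hg htop
    apply hg
    apply LinearEquiv.toLinearMap_injective
    refine LinearMap.ext fun x => ?_
    show g x = x
    apply b.repr.injective
    ext i
    have : (Pi.single i (1 : ℝ)) ∈ W g := by rw [htop]; trivial
    have h1 := (hWmem _ _).1 this x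
    rw [hΦ, hΦ] at h1
    simpa [Pi.single_apply] using h1
  have hWopen : ∀ g, g ≠ 1 → IsOpen ((W g : Set (Module.Free.ChooseBasisIndex ℤ L → ℝ))ᶜ) ∧ Dense ((W g : Set (Module.Free.ChooseBasisIndex ℤ L → ℝ))ᶜ) := by
    intro g hg
    refine ⟨(Submodule.closed_of_finiteDimensional (W g)).isOpen_compl, ?_⟩
    rw [← interior_eq_empty_iff_dense_compl]
    by_contra hne
    exact hWproper g hg ((W g).eq_top_of_nonempty_interior'
      (Set.nonempty_iff_ne_empty.2 hne))
  have hgood : ∀ t : Finset (V ≃ₗ[ℝ] V), (1 ∉ t) →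
      IsOpen {c | ∀ g ∈ t, c ∉ W g} ∧ Dense {c | ∀ g ∈ t, c ∉ W g} := by
    intro t
    induction t using Finset.induction_on with
    | empty => intro _; simp
    | insert g t hgt ih =>
      intro h1
      rw [Finset.mem_insert, not_or] at h1
      obtain ⟨ih1, ih2⟩ := ih h1.2
      obtain ⟨w1, w2⟩ := hWopen g (Ne.symm h1.1)
      have : {c | ∀ g' ∈ insert g t, c ∉ W g'} = (W g : Set (Module.Free.ChooseBasisIndex ℤ L → ℝ))ᶜ ∩ {c | ∀ g ∈ t, c ∉ W g} := by
        ext c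
        simp only [Finset.mem_insert, forall_eq_or_imp, mem_ofPred_eq, mem_inter_iff, mem_compl_iff,
          SetLike.mem_coe]
      rw [this]
      exact ⟨w1.inter ih1, w2.inter_of_isOpen_left ih2 w1⟩
  obtain ⟨hg1, hg2⟩ := hgood (hG₀.toFinset.erase 1) (by simp)
  obtain ⟨c₁, hc₁⟩ : (U ∩ {c | ∀ g ∈ hG₀.toFinset.erase 1, c ∉ W g}).Nonempty :=
    hg2.inter_open_nonempty U hUo hUne
  have hdense : DenseRange (Pi.map fun (_ : Module.Free.ChooseBasisIndex ℤ L) =>
      ((↑) : ℚ → ℝ)) := DenseRange.piMap fun _ => Rat.denseRange_cast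
  obtain ⟨q, hq⟩ := hdense.exists_mem_open (hUo.inter hg1) ⟨c₁, hc₁⟩
  obtain ⟨N, hN, hNq⟩ := exists_common_denom q
  have hN' : (0 : ℝ) < N := by exact_mod_cast hN
  obtain ⟨hqU, hqW⟩ := hq
  obtain ⟨hp, hst⟩ := hnear _ hqU
  refine ⟨(N : ℝ) • Φ (Pi.map (fun _ => ((↑) : ℚ → ℝ)) q), ?_, ?_, ?_⟩
  · intro x hx hx0
    have h1 := hp x hx
    have hnx : 0 < ‖x‖ := norm_pos_iff.2 hx0
    have h2 : 0 < Φ (Pi.map (fun _ => ((↑) : ℚ → ℝ)) q) x := lt_of_lt_of_le (by positivity) h1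
    rw [smul_apply, smul_eq_mul]
    positivity
  · intro x hx
    rw [smul_apply, smul_eq_mul, hΦ]
    choose n hn using hNq
    refine ⟨∑ i, n i * b₀.repr ⟨x, hx⟩ i, ?_⟩
    rw [Finset.mul_sum]
    push_cast
    refine Finset.sum_congr rfl fun i _ => ?_
    have h1 : b.repr x i = b₀.repr ⟨x, hx⟩ i := b₀.ofZLatticeBasis_repr_apply ℝ L ⟨x, hx⟩ i
    rw [h1, ← mul_assoc]
    congr 1
    exact hn i
  · intro g hg hgx
    have hgx' : ∀ x, Φ (Pi.map (fun _ => ((↑) : ℚ → ℝ)) q) (g x) =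
        Φ (Pi.map (fun _ => ((↑) : ℚ → ℝ)) q) x := by
      intro x
      have := hgx x
      rw [smul_apply, smul_apply, smul_eq_mul, smul_eq_mul] at this
      exact mul_left_cancel₀ hN'.ne' this
    by_contra hne
    have h1 := hst g hg hgx'
    have h2 : g ∈ hG₀.toFinset.erase 1 := by
      rw [Finset.mem_erase]
      exact ⟨hne, hG₀.mem_toFinset.2 h1⟩
    exact hqW g h2 ((hWmem _ _).2 hgx')

end positive

end Pool.Agent.Lib.Pad47bb
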