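import Pool.Agent.Lib.Pad47bb.LogLattice

/-!
A cyclic module over a commuting family of automorphisms is a commutative algebra.
-/

open Set Topology

namespace Pool.Agent.Lib.Pad47bb

universe u

variable {V : Type u} [NormedAddCommGroup V] [NormedSpace ℝ V] [FiniteDimensional ℝ V]

/-- the normed commutative ring structure on a commutative subalgebra -/
@[reducible] noncomputable def commNormedRing {E : Type*} [NormedRing E] [NormedAlgebra ℝ E]
    (S : Subalgebra ℝ E) (h : ∀ a b : S, a * b = b * a) : NormedCommRing S :=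
  { (inferInstance : NormedRing S) with mul_comm := h }

theorem exists_alg {ι : Type*} (g : ι → V ≃ₗ[ℝ] V) (hcomm : ∀ i j, g i * g j = g j * g i) (x : V)
    (hcyc : ∀ W : Submodule ℝ V, x ∈ W →
      (∀ i, ∀ w ∈ W, g i w ∈ W ∧ (g i).symm w ∈ W) → W = ⊤) :
    ∃ (R : Type u) (_ : NormedCommRing R) (_ : NormedAlgebra ℝ R) (_ : FiniteDimensional ℝ R)
      (ev : R ≃ₗ[ℝ] V) (a a' : ι → R), ev 1 = x ∧ (∀ i r, ev (a i * r) = g i (ev r)) ∧
      ∀ i, a i * a' i = 1 := by
  classical
  let E := V →L[ℝ] V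
  let c : (V ≃ₗ[ℝ] V) → E := fun g => LinearMap.toContinuousLinearMap (g : V →ₗ[ℝ] V)
  have hc : ∀ g v, c g v = g v := fun g v => rfl
  let s : Set E := range (fun i => c (g i)) ∪ range (fun i => c (g i).symm)
  have hg : ∀ i j v, g i (g j v) = g j (g i v) := by
    intro i j v
    have := hcomm i j
    exact congrArg (fun f : V ≃ₗ[ℝ] V => f v) this
  have hg1 : ∀ i j v, g i ((g j).symm v) = (g j).symm (g i v) := by
    intro i j v
    rw [LinearEquiv.eq_symm_apply, ← hg, LinearEquiv.apply_symm_apply]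
  have hg2 : ∀ i j v, (g i).symm ((g j).symm v) = (g j).symm ((g i).symm v) := by
    intro i j v
    rw [LinearEquiv.eq_symm_apply, hg1 j i, LinearEquiv.apply_symm_apply]
  have hs : ∀ a ∈ s, ∀ b ∈ s, a * b = b * a := by
    rintro _ (⟨i, rfl⟩ | ⟨i, rfl⟩) _ (⟨j, rfl⟩ | ⟨j, rfl⟩)
    · ext v
      exact hg i j v
    · ext v
      exact hg1 i j v
    · ext v
      exact (hg1 j i v).symm
    · ext v
      exact hg2 i j v
  let S : Subalgebra ℝ E := Algebra.adjoin ℝ s
  have hScomm : ∀ a b : S, a * b = b * a := by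
    intro a b
    have := Algebra.isMulCommutative_adjoin ℝ hs
    exact this.is_comm.comm a b
  letI iR : NormedCommRing S := commNormedRing S hScomm
  letI iA : NormedAlgebra ℝ S := Subalgebra.toNormedAlgebra S
  haveI iF : FiniteDimensional ℝ S := inferInstance
  let ev₀ : S →ₗ[ℝ] V :=
    { toFun := fun r => (r : E) x
      map_add' := fun r r' => rfl
      map_smul' := fun t r => rfl }
  have hmem : ∀ i, c (g i) ∈ S := fun i => Algebra.subset_adjoin (Or.inl ⟨i, rfl⟩)
  have hmem' : ∀ i, c (g i).symm ∈ S := fun i => Algebra.subset_adjoin (Or.inr ⟨i, rfl⟩)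
  have hrange : LinearMap.range ev₀ = ⊤ := by
    apply hcyc
    · exact ⟨1, rfl⟩
    · rintro i w ⟨r, rfl⟩
      refine ⟨⟨⟨c (g i), hmem i⟩ * r, rfl⟩, ⟨⟨c (g i).symm, hmem' i⟩ * r, rfl⟩⟩
  have hinj : Function.Injective ev₀ := by
    rw [← LinearMap.ker_eq_bot, LinearMap.ker_eq_bot']
    intro r hr
    ext v
    have hv : v ∈ LinearMap.range ev₀ := by rw [hrange]; exact Submodule.mem_top
    obtain ⟨t, rfl⟩ := hv
    have h1 : r * t = t * r := hScomm r t
    have h2 : ((r * t : S) : E) x = ((t * r : S) : E) x := by rw [h1]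
    have h3 : ((t * r : S) : E) x = (t : E) ((r : E) x) := rfl
    have h4 : ((r * t : S) : E) x = (r : E) ((t : E) x) := rfl
    have h5 : (r : E) x = 0 := hr
    show (r : E) ((t : E) x) = 0
    rw [← h4, h2, h3, h5, map_zero]
  let ev : S ≃ₗ[ℝ] V := LinearEquiv.ofBijective ev₀ ⟨hinj, LinearMap.range_eq_top.1 hrange⟩
  refine ⟨S, iR, iA, iF, ev, fun i => ⟨c (g i), hmem i⟩, fun i => ⟨c (g i).symm, hmem' i⟩,
    rfl, fun i r => rfl, fun i => ?_⟩
  ext v
  show g i ((g i).symm v) = v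
  exact LinearEquiv.apply_symm_apply _ _

end Pool.Agent.Lib.Pad47bb
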