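import Pool.Agent.Lib.Pad47bb.Poly

/-!
Existence of rational polyhedral fundamental domains (Dirichlet domains via Dickson's lemma).
-/

open Set Topology

namespace Pool.Agent.Lib.Pad47bb

variable {V : Type*} [NormedAddCommGroup V] [NormedSpace ℝ V]

theorem dickson (s : Finset V) (Γ : Set (V ≃ₗ[ℝ] V)) (hΓ : Γ.Nonempty) (f : V →L[ℝ] ℝ)
    (hf : ∀ g ∈ Γ, ∀ a ∈ s, ∃ n : ℕ, f (g a) = n) :
    ∃ Φ : Finset (V ≃ₗ[ℝ] V), (Φ : Set (V ≃ₗ[ℝ] V)) ⊆ Γ ∧ Φ.Nonempty ∧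
      ∀ g ∈ Γ, ∃ φ ∈ Φ, ∀ x ∈ PointedCone.hull ℝ (s : Set V), f (φ x) ≤ f (g x) := by
  classical
  choose! w hw using hf
  -- vectors of values
  let W : (V ≃ₗ[ℝ] V) → (s → ℕ) := fun g a => w g a
  let T : Set (s → ℕ) := W '' Γ
  let M : Set (s → ℕ) := {m | Minimal (· ∈ T) m}
  have hMfin : M.Finite := by
    apply WellQuasiOrderedLE.finite_of_isAntichain
    intro a ha b hb hab hle
    exact hab (le_antisymm hle (hb.le_of_le ha.prop hle))
  have hMT : ∀ m ∈ M, ∃ g ∈ Γ, W g = m := fun m hm => hm.prop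
  choose! γ hγ hγW using hMT
  refine ⟨hMfin.toFinset.image γ, ?_, ?_, ?_⟩
  · intro g hg
    obtain ⟨m, hm, rfl⟩ := Finset.mem_image.1 hg
    exact hγ m (hMfin.mem_toFinset.1 hm)
  · obtain ⟨g, hg⟩ := hΓ
    obtain ⟨m, hm, hmin⟩ := exists_minimal_le_of_wellFoundedLT (· ∈ T) (W g) ⟨g, hg, rfl⟩
    exact ⟨γ m, Finset.mem_image_of_mem _ (hMfin.mem_toFinset.2 hmin)⟩
  · intro g hg
    obtain ⟨m, hm, hmin⟩ := exists_minimal_le_of_wellFoundedLT (· ∈ T) (W g) ⟨g, hg, rfl⟩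
    refine ⟨γ m, Finset.mem_image_of_mem _ (hMfin.mem_toFinset.2 hmin), ?_⟩
    intro x hx
    obtain ⟨c, hc, rfl⟩ := mem_hull_finset.1 hx
    simp only [map_sum, map_smul, smul_eq_mul]
    refine Finset.sum_le_sum fun a ha => mul_le_mul_of_nonneg_left ?_ (hc a ha)
    rw [hw (γ m) (hγ m hmin) a ha, hw g hg a ha]
    have h1 : W (γ m) ⟨a, ha⟩ = m ⟨a, ha⟩ := congrFun (hγW m hmin) _
    have h2 : m ⟨a, ha⟩ ≤ W g ⟨a, ha⟩ := hm _
    exact_mod_cast h1.trans_le h2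

/-- A linear functional vanishing on a nonempty open set is zero. -/
theorem eq_zero_of_open (h : V →L[ℝ] ℝ) (O : Set V) (hO : IsOpen O) (hne : O.Nonempty)
    (hz : ∀ x ∈ O, h x = 0) (x : V) : h x = 0 := by
  obtain ⟨y, hy⟩ := hne
  obtain ⟨δ, hδ, hball⟩ := Metric.isOpen_iff.1 hO y hy
  set c : ℝ := δ / (2 * (1 + ‖x‖)) with hc
  have hc0 : 0 < c := by positivity
  have hmem : y + c • x ∈ O := by
    apply hball
    rw [Metric.mem_ball, dist_eq_norm, add_sub_cancel_left, norm_smul,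
      Real.norm_of_nonneg hc0.le, hc, div_mul_eq_mul_div, div_lt_iff₀ (by positivity)]
    nlinarith [norm_nonneg x]
  have h1 := hz _ hmem
  rw [map_add, hz y hy, zero_add, map_smul, smul_eq_mul] at h1
  rcases mul_eq_zero.1 h1 with h | h
  · exact absurd h hc0.ne'
  · exact h

section exist

variable [FiniteDimensional ℝ V] (L : Submodule ℤ V) [DiscreteTopology L] [IsZLattice ℝ L]

/-- The general setting: `K` a salient cone with nonempty interior, `Γ` a group of automorphisms of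
the lattice `L` preserving `K`. -/
structure Setting (K : PointedCone ℝ V) (Γ : Subgroup (V ≃ₗ[ℝ] V)) : Prop where
  salient : ∀ x ∈ closure (K : Set V), -x ∈ closure (K : Set V) → x = 0
  interior_nonempty : (interior (K : Set V)).Nonempty
  map_lattice : ∀ g ∈ Γ, ∀ x ∈ L, g x ∈ L
  map_cone : ∀ g ∈ Γ, ∀ x ∈ K, g x ∈ K

variable {L}

omit [FiniteDimensional ℝ V] [DiscreteTopology L] [IsZLattice ℝ L] in
/-- values of an integral functional, positive on the cone, are natural numbers on lattice points -/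
theorem nat_values {K : PointedCone ℝ V} {f : V →L[ℝ] ℝ}
    (hpos : ∀ x ∈ closure (K : Set V), x ≠ 0 → 0 < f x)
    (hint : ∀ x ∈ L, ∃ n : ℤ, f x = n) {x : V} (hxL : x ∈ L) (hxK : x ∈ K) :
    ∃ n : ℕ, f x = n := by
  obtain ⟨n, hn⟩ := hint x hxL
  have h0 : 0 ≤ f x := by
    by_cases hx : x = 0
    · simp [hx]
    · exact (hpos x (subset_closure hxK) hx).le
  have : 0 ≤ n := by
    rw [hn] at h0
    exact_mod_cast h0
  obtain ⟨m, rfl⟩ := Int.eq_ofNat_of_zero_le this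
  exact ⟨m, by simpa using hn⟩

/-- Existence theorem: if a rational polyhedral cone `P₁ ⊆ K` has `Γ P₁ = K`, then `Γ` has a rational
polyhedral fundamental domain on `K`. -/
theorem exists_fundDomain {K : PointedCone ℝ V} {Γ : Subgroup (V ≃ₗ[ℝ] V)} (S : Setting L K Γ)
    {P₁ : PointedCone ℝ V} (hP : IsRatPoly L P₁)
    (hcov : (K : Set V) = ⋃ g ∈ Γ, (g : V → V) '' (P₁ : Set V)) : HasRPFD L Γ K := by
  classical
  obtain ⟨f, hpos, hint, hstab⟩ := exists_functional L K Γ S.map_lattice S.map_cone S.salient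
    S.interior_nonempty
  obtain ⟨s, hsL, rfl⟩ := hP
  have hP1K : PointedCone.hull ℝ (s : Set V) ≤ K := by
    intro x hx
    show x ∈ (K : Set V)
    rw [hcov]
    exact mem_biUnion (one_mem Γ) ⟨x, hx, rfl⟩
  obtain ⟨Φ, hΦΓ, hΦne, hΦ⟩ := dickson s (Γ : Set (V ≃ₗ[ℝ] V)) ⟨1, one_mem Γ⟩ f (by
    intro g hg a ha
    exact nat_values (L := L) hpos hint (S.map_lattice g hg a (hsL ha))
      (S.map_cone g hg a (hP1K (Submodule.subset_span ha))))
  -- the Dirichlet domain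
  let σ : PointedCone ℝ V :=
    { carrier := {x | x ∈ K ∧ ∀ g ∈ Γ, f x ≤ f (g x)}
      add_mem' := by
        rintro x y ⟨hx, hx'⟩ ⟨hy, hy'⟩
        refine ⟨add_mem hx hy, fun g hg => ?_⟩
        rw [map_add, map_add, map_add]
        exact add_le_add (hx' g hg) (hy' g hg)
      zero_mem' := ⟨zero_mem K, fun g _ => by simp⟩
      smul_mem' := by
        rintro ⟨c, hc⟩ x ⟨hx, hx'⟩
        refine ⟨PointedCone.smul_mem K hc hx, fun g hg => ?_⟩
        show f (c • x) ≤ f (g (c • x))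
        rw [map_smul, map_smul, map_smul]
        exact smul_le_smul_of_nonneg_left (hx' g hg) hc }
  have hσ : ∀ x, x ∈ σ ↔ x ∈ K ∧ ∀ g ∈ Γ, f x ≤ f (g x) := fun x => Iff.rfl
  -- pieces
  let comp : (V ≃ₗ[ℝ] V) → V →L[ℝ] ℝ := fun φ =>
    f.comp (LinearMap.toContinuousLinearMap (φ : V →ₗ[ℝ] V))
  have hcomp : ∀ φ x, comp φ x = f (φ x) := fun φ x => rfl
  let piece : (V ≃ₗ[ℝ] V) → PointedCone ℝ V := fun φ =>
    PointedCone.hull ℝ (s : Set V) ⊓ ⨅ ψ ∈ Φ, halfSpace (comp ψ - comp φ)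
  have hpiece : ∀ φ x, x ∈ piece φ ↔ x ∈ PointedCone.hull ℝ (s : Set V) ∧
      ∀ ψ ∈ Φ, f (φ x) ≤ f (ψ x) := by
    intro φ x
    simp only [piece, Submodule.mem_inf, Submodule.mem_iInf, mem_halfSpace, sub_apply, hcomp,
      sub_nonneg]
  have hpieceRP : ∀ φ ∈ Φ, IsRatPoly L (piece φ) := by
    intro φ hφ
    refine IsRatPoly.inf_halfSpaces ⟨s, hsL, rfl⟩ Φ _ ?_
    intro ψ hψ x hx
    obtain ⟨n, hn⟩ := hint (ψ x) (S.map_lattice ψ (hΦΓ hψ) x hx)
    obtain ⟨m, hm⟩ := hint (φ x) (S.map_lattice φ (hΦΓ hφ) x hx)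
    refine ⟨n - m, ?_⟩
    rw [sub_apply, hcomp, hcomp, hn, hm]
    push_cast
    ring
  let P₂ : PointedCone ℝ V := ⨆ φ ∈ Φ, imageCone φ (piece φ)
  have hP2 : IsRatPoly L P₂ := IsRatPoly.biSup Φ _ fun φ hφ =>
    (hpieceRP φ hφ).image φ (S.map_lattice φ (hΦΓ hφ))
  have hP2σ : P₂ ≤ σ := by
    refine iSup₂_le fun φ hφ => imageCone_le ?_
    intro x hx
    obtain ⟨hx1, hx2⟩ := (hpiece φ x).1 hx
    refine ⟨S.map_cone φ (hΦΓ hφ) x (hP1K hx1), fun g hg => ?_⟩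
    obtain ⟨ψ, hψ, hψx⟩ := hΦ (g * φ) (mul_mem hg (hΦΓ hφ))
    exact (hx2 ψ hψ).trans (hψx x hx1)
  refine ⟨P₂, hP2, ?_, ?_⟩
  · apply Subset.antisymm
    · rw [hcov]
      refine iUnion₂_subset fun g hg => ?_
      rintro _ ⟨x, hx, rfl⟩
      obtain ⟨φ, hφ, hmin⟩ := Φ.exists_min_image (fun ψ => f (ψ x)) hΦne
      have hxp : x ∈ piece φ := (hpiece φ x).2 ⟨hx, hmin⟩
      have hφx : φ x ∈ P₂ := by
        have h1 : imageCone φ (piece φ) ≤ P₂ :=
          le_iSup₂ (f := fun φ (_ : φ ∈ Φ) => imageCone φ (piece φ)) φ hφ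
        exact h1 ⟨x, hxp, rfl⟩
      refine mem_biUnion (mul_mem hg (inv_mem (hΦΓ hφ))) ⟨φ x, hφx, ?_⟩
      show g (φ⁻¹ (φ x)) = g x
      congr 1
      exact φ.symm_apply_apply x
    · refine iUnion₂_subset fun g hg => ?_
      rintro _ ⟨x, hx, rfl⟩
      exact S.map_cone g hg x (hP2σ hx).1
  · intro g hg hg1
    by_contra hne
    obtain ⟨y, hy⟩ := Set.nonempty_iff_ne_empty.2 hne
    apply hg1
    have hginv : g⁻¹ ∈ Γ := inv_mem hg
    have : g⁻¹ = 1 := by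
      apply hstab g⁻¹ hginv
      intro x
      have hz := eq_zero_of_open (comp g⁻¹ - f)
        (interior (P₂ : Set V) ∩ interior ((g : V → V) '' (P₂ : Set V)))
        (isOpen_interior.inter isOpen_interior) ⟨y, hy⟩ (by
          rintro z ⟨hz1, hz2⟩
          have h1 := (hσ z).1 (hP2σ (interior_subset hz1))
          obtain ⟨z', hz', hzz'⟩ := interior_subset hz2
          have h2 := (hσ z').1 (hP2σ hz')
          have h3 := h1.2 g⁻¹ hginv
          have h4 := h2.2 g hg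
          rw [hzz'] at h4
          have h5 : g⁻¹ z = z' := by
            rw [← hzz']
            exact g.symm_apply_apply z'
          rw [sub_apply, hcomp, h5]
          rw [h5] at h3
          linarith) x
      rw [sub_apply, hcomp] at hz
      linarith
    exact inv_eq_one.1 this

end exist

end Pool.Agent.Lib.Pad47bb
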