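import Mathlib

/-!
The exponential map of a finite-dimensional commutative real algebra: it is a homomorphism onto an
open subgroup of the unit group that contains the square of every unit.
-/

open NormedSpace Filter Topology

namespace Pool.Agent.Lib.Pad47bb

section expalg

variable {R : Type*} [NormedCommRing R] [NormedAlgebra ℝ R] [FiniteDimensional ℝ R]

theorem ex_add (x y : R) : exp (x + y) = exp x * exp y := by
  let _ : NormedAlgebra ℚ R := NormedAlgebra.restrictScalars ℚ ℝ R
  have _ : CompleteSpace R := FiniteDimensional.complete ℝ R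
  exact NormedSpace.exp_add

theorem ex_cont : Continuous (exp : R → R) := by
  let _ : NormedAlgebra ℚ R := NormedAlgebra.restrictScalars ℚ ℝ R
  have _ : CompleteSpace R := FiniteDimensional.complete ℝ R
  exact NormedSpace.exp_continuous

theorem ex_mul_neg (x : R) : exp x * exp (-x) = 1 := by
  rw [← ex_add, add_neg_cancel, exp_zero]

theorem ex_strict : HasStrictFDerivAt (exp : R → R)
    ((ContinuousLinearEquiv.refl ℝ R : R ≃L[ℝ] R) : R →L[ℝ] R) 0 := by
  let _ : NormedAlgebra ℚ R := NormedAlgebra.restrictScalars ℚ ℝ R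
  have _ : CompleteSpace R := FiniteDimensional.complete ℝ R
  exact hasStrictFDerivAt_exp_zero

theorem ex_range_nhds : Set.range (exp : R → R) ∈ 𝓝 (1 : R) := by
  have _ : CompleteSpace R := FiniteDimensional.complete ℝ R
  have h := (ex_strict (R := R)).map_nhds_eq_of_equiv
  rw [exp_zero] at h
  rw [← h]
  exact mem_map.2 (Filter.mem_of_superset univ_mem (fun x _ => ⟨x, rfl⟩))

theorem ex_inj : ∃ ε > 0, ∀ x : R, ‖x‖ < ε → exp x = 1 → x = 0 := by
  have _ : CompleteSpace R := FiniteDimensional.complete ℝ R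
  have h := (ex_strict (R := R)).eventually_left_inverse
  obtain ⟨ε, hε, hb⟩ := Metric.eventually_nhds_iff.1 h
  refine ⟨ε, hε, fun x hx hx1 => ?_⟩
  have h0 := hb (y := (0 : R)) (by simpa using hε)
  have h1 := hb (y := x) (by simpa using hx)
  rw [hx1] at h1
  rw [exp_zero] at h0
  rw [← h1, h0]

theorem ex_range_open {x : R} (hx : x ∈ Set.range (exp : R → R)) :
    Set.range (exp : R → R) ∈ 𝓝 x := by
  obtain ⟨s, rfl⟩ := hx
  have h1 : ∀ᶠ y in 𝓝 (exp s), exp (-s) * y ∈ Set.range (exp : R → R) := by
    have hc : Tendsto (fun y : R => exp (-s) * y) (𝓝 (exp s)) (𝓝 (exp (-s) * exp s)) :=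
      (continuous_const.mul continuous_id).tendsto _
    rw [mul_comm, ex_mul_neg] at hc
    exact hc ex_range_nhds
  filter_upwards [h1] with y hy
  obtain ⟨t, ht⟩ := hy
  refine ⟨s + t, ?_⟩
  rw [ex_add, ht, ← mul_assoc, ex_mul_neg, one_mul]

theorem ex_range_closed {x y : R} (hxy : x * y = 1) (hx : x ∉ Set.range (exp : R → R)) :
    (Set.range (exp : R → R))ᶜ ∈ 𝓝 x := by
  have h1 : ∀ᶠ z in 𝓝 x, y * z ∈ Set.range (exp : R → R) := by
    have hc : Tendsto (fun z : R => y * z) (𝓝 x) (𝓝 (y * x)) :=
      (continuous_const.mul continuous_id).tendsto _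
    rw [mul_comm y x, hxy] at hc
    exact hc ex_range_nhds
  filter_upwards [h1] with z hz
  rintro ⟨t, rfl⟩
  obtain ⟨s, hs⟩ := hz
  apply hx
  refine ⟨t - s, ?_⟩
  rw [sub_eq_add_neg, ex_add]
  have h2 : exp t * exp (-s) * (y * exp t) = exp t := by
    rw [← hs, mul_assoc, mul_comm (exp (-s)), ex_mul_neg, mul_one]
  have h3 : exp (-t) * exp t = 1 := by rw [mul_comm, ex_mul_neg]
  calc exp t * exp (-s) = exp t * exp (-s) * (x * y) := by rw [hxy, mul_one]
    _ = x * (exp t * exp (-s) * (y * exp t)) * exp (-t) := by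
        have : exp t * exp (-t) = 1 := ex_mul_neg t
        calc exp t * exp (-s) * (x * y) = exp t * exp (-s) * (x * y) * 1 := by rw [mul_one]
          _ = exp t * exp (-s) * (x * y) * (exp t * exp (-t)) := by rw [this]
          _ = _ := by ring
    _ = x := by rw [h2, mul_assoc, ex_mul_neg, mul_one]





open Polynomial in
theorem isUnit_of_det (x : R) (h : (LinearMap.mulLeft ℝ x).det ≠ 0) : ∃ y, x * y = 1 := by
  have hu : IsUnit (LinearMap.det (LinearMap.mulLeft ℝ x)) := isUnit_iff_ne_zero.2 h
  let e := LinearEquiv.ofIsUnitDet (f := LinearMap.mulLeft ℝ x)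
    (v := Module.finBasis ℝ R) (v' := Module.finBasis ℝ R) (by
      rw [← LinearMap.det_toMatrix (Module.finBasis ℝ R)] at hu
      exact hu)
  refine ⟨e.symm 1, ?_⟩
  have := e.apply_symm_apply 1
  exact this

/-- the square of a unit is in the image of the exponential map -/
theorem exists_log_sq (a a' : R) (ha : a * a' = 1) : ∃ s : R, exp s = a ^ 2 := by
  classical
  let b : R := a - 1
  let u : ℂ → R := fun z => 1 + (2 * z.re) • b + (Complex.normSq z) • b ^ 2
  have hu : Continuous u := by
    have h1 : Continuous fun z : ℂ => (2 * z.re) • b :=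
      (continuous_const.mul Complex.continuous_re).smul continuous_const
    have h2 : Continuous fun z : ℂ => (Complex.normSq z) • b ^ 2 :=
      Complex.continuous_normSq.smul continuous_const
    exact (continuous_const.add h1).add h2
  have hu0 : u 0 = 1 := by simp [u]
  have hu1 : u 1 = a ^ 2 := by
    simp only [u, b, Complex.one_re, mul_one, map_one, one_smul]
    rw [two_smul]
    ring
  let ι := Fin (Module.finrank ℝ R)
  let B := Module.finBasis ℝ R
  let M : Matrix ι ι ℝ := LinearMap.toMatrix B B (LinearMap.mulLeft ℝ b)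
  let Mc : Matrix ι ι ℂ := (algebraMap ℝ ℂ).mapMatrix M
  -- determinant polynomial
  let D : Polynomial ℂ := (-Mc).charpolyRev
  have hD0 : D ≠ 0 := by
    intro h
    have := Matrix.eval_charpolyRev (M := -Mc)
    rw [show (-Mc).charpolyRev = D from rfl, h] at this
    simp at this
  have hDz : ∀ z : ℂ, D.eval z = (1 + z • Mc).det := by
    intro z
    show (Polynomial.evalRingHom z) (-Mc).charpolyRev = _
    rw [Matrix.charpolyRev, RingHom.map_det]
    congr 1
    ext i j
    simp [Matrix.sub_apply, Matrix.one_apply, apply_ite]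
    ring
  have hMu : ∀ z : ℂ, (algebraMap ℝ ℂ).mapMatrix (LinearMap.toMatrix B B (LinearMap.mulLeft ℝ (u z)))
      = (1 + z • Mc) * (1 + (starRingEnd ℂ z) • Mc) := by
    intro z
    have h1 : LinearMap.toMatrix B B (LinearMap.mulLeft ℝ (u z)) =
        1 + (2 * z.re) • M + (Complex.normSq z) • M ^ 2 := by
      have : LinearMap.mulLeft ℝ (u z) = 1 + (2 * z.re) • LinearMap.mulLeft ℝ b +
          (Complex.normSq z) • (LinearMap.mulLeft ℝ b) ^ 2 := by
        ext y
        simp [u, add_mul, LinearMap.mulLeft_apply, pow_two, mul_assoc]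
      rw [this]
      simp only [map_add, map_smul, M, pow_two, LinearMap.toMatrix_mul, LinearMap.toMatrix_one]
    rw [h1]
    have h2 : (algebraMap ℝ ℂ).mapMatrix (1 + (2 * z.re) • M + (Complex.normSq z) • M ^ 2) =
        1 + ((2 * z.re : ℝ) : ℂ) • Mc + ((Complex.normSq z : ℝ) : ℂ) • Mc ^ 2 := by
      have hs : ∀ (r : ℝ) (N : Matrix ι ι ℝ), (algebraMap ℝ ℂ).mapMatrix (r • N) =
          (r : ℂ) • (algebraMap ℝ ℂ).mapMatrix N := by
        intro r N
        ext i j
        simp
      rw [map_add, map_add, map_one, hs, hs, map_pow]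
    rw [h2]
    have h3 : ((2 * z.re : ℝ) : ℂ) = z + starRingEnd ℂ z := by
      rw [Complex.add_conj]
    have h4 : ((Complex.normSq z : ℝ) : ℂ) = z * starRingEnd ℂ z := by
      rw [Complex.mul_conj]
    rw [h3, h4]
    simp only [add_mul, mul_add, one_mul, mul_one, add_smul, smul_mul_smul_comm, pow_two]
    abel
  have hdet : ∀ z : ℂ, (((LinearMap.mulLeft ℝ (u z)).det : ℝ) : ℂ) =
      D.eval z * D.eval (starRingEnd ℂ z) := by
    intro z
    rw [hDz, hDz, ← Matrix.det_mul, ← hMu, ← RingHom.map_det, LinearMap.det_toMatrix]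
    rfl
  let F : Set ℂ := {z | D.eval z = 0} ∪ (starRingEnd ℂ) ⁻¹' {z | D.eval z = 0}
  have hfin : {z : ℂ | D.eval z = 0}.Finite := by
    have := D.roots.toFinset.finite_toSet
    refine this.subset ?_
    intro z hz
    simp only [Finset.mem_coe, Multiset.mem_toFinset, Polynomial.mem_roots', ne_eq]
    exact ⟨hD0, hz⟩
  have hF : F.Countable := by
    refine (hfin.countable).union ?_
    exact (hfin.preimage (star_injective.injOn)).countable
  have hconn : IsConnected (Fᶜ) :=
    hF.isConnected_compl_of_one_lt_rank (by rw [Complex.rank_real_complex]; norm_num)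
  have hunit : ∀ z ∈ Fᶜ, ∃ y, u z * y = 1 := by
    intro z hz
    apply isUnit_of_det
    intro h
    have h1 := hdet z
    rw [h] at h1
    simp only [Complex.ofReal_zero] at h1
    rcases mul_eq_zero.1 h1.symm with h2 | h2
    · exact hz (Or.inl h2)
    · exact hz (Or.inr h2)
  let U₁ : Set ℂ := {z | Set.range (exp : R → R) ∈ 𝓝 (u z)}
  let U₂ : Set ℂ := {z | (Set.range (exp : R → R))ᶜ ∈ 𝓝 (u z)}
  have hU₁ : IsOpen U₁ := by
    have : U₁ = u ⁻¹' (interior (Set.range (exp : R → R))) := by
      ext z
      simp [U₁, mem_interior_iff_mem_nhds]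
    rw [this]
    exact isOpen_interior.preimage hu
  have hU₂ : IsOpen U₂ := by
    have : U₂ = u ⁻¹' (interior (Set.range (exp : R → R))ᶜ) := by
      ext z
      simp only [U₂, Set.mem_preimage, mem_interior_iff_mem_nhds]
      rfl
    rw [this]
    exact isOpen_interior.preimage hu
  have hdisj : Disjoint U₁ U₂ := by
    rw [Set.disjoint_left]
    intro z h1 h2
    have h1' := mem_of_mem_nhds h1
    have h2' := mem_of_mem_nhds h2
    exact h2' h1'
  have hcov : Fᶜ ⊆ U₁ ∪ U₂ := by
    intro z hz
    obtain ⟨y, hy⟩ := hunit z hz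
    by_cases h : u z ∈ Set.range (exp : R → R)
    · exact Or.inl (ex_range_open h)
    · exact Or.inr (ex_range_closed hy h)
  have h0F : (0 : ℂ) ∈ Fᶜ := by
    intro h
    have hD00 : D.eval 0 = 1 := Matrix.eval_charpolyRev (M := -Mc)
    rcases h with h | h
    · have : D.eval 0 = 0 := h
      rw [hD00] at this
      exact one_ne_zero this
    · have : D.eval (starRingEnd ℂ 0) = 0 := h
      rw [map_zero, hD00] at this
      exact one_ne_zero this
  have h0U : (0 : ℂ) ∈ U₁ := by
    show Set.range (exp : R → R) ∈ 𝓝 (u 0)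
    rw [hu0]
    exact ex_range_nhds
  have hsub : Fᶜ ⊆ U₁ :=
    hconn.isPreconnected.subset_left_of_subset_union hU₁ hU₂ hdisj hcov ⟨0, h0F, h0U⟩
  have h1F : (1 : ℂ) ∈ Fᶜ := by
    have key : D.eval 1 ≠ 0 := by
      intro h
      have h1 := hdet 1
      rw [h, zero_mul, hu1] at h1
      have h2 : (LinearMap.mulLeft ℝ (a ^ 2)).det = 0 := by exact_mod_cast h1
      have h3 : LinearMap.mulLeft ℝ (a ^ 2) * LinearMap.mulLeft ℝ (a' ^ 2) = 1 := by
        ext y
        simp only [Module.End.mul_apply, LinearMap.mulLeft_apply, Module.End.one_apply]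
        rw [← mul_assoc, ← mul_pow, ha, one_pow, one_mul]
      have h4 := congrArg LinearMap.det h3
      rw [map_mul, h2, zero_mul, map_one] at h4
      exact zero_ne_one h4
    intro h
    rcases h with h | h
    · exact key h
    · have : D.eval (starRingEnd ℂ 1) = 0 := h
      rw [map_one] at this
      exact key this
  have := mem_of_mem_nhds (hsub h1F)
  rw [hu1] at this
  exact this

end expalg

end Pool.Agent.Lib.Pad47bb
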