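import Pool.Agent.Lib.Pad47bb.Exist

/-!
Comparison of rational polyhedral fundamental domains for a subgroup and the whole group.
-/

open Set Topology
namespace Pool.Agent.Lib.Pad47bb
variable {V : Type*} [NormedAddCommGroup V] [NormedSpace ℝ V] [FiniteDimensional ℝ V]
  {L : Submodule ℤ V} [DiscreteTopology L] [IsZLattice ℝ L]

omit [FiniteDimensional ℝ V] [DiscreteTopology L] [IsZLattice ℝ L] in
theorem IsRatPoly.le_of_cover {K P : PointedCone ℝ V} {Γ : Subgroup (V ≃ₗ[ℝ] V)}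
    (hcov : (K : Set V) = ⋃ g ∈ Γ, (g : V → V) '' (P : Set V)) : P ≤ K := by
  intro x hx
  show x ∈ (K : Set V)
  rw [hcov]
  exact mem_biUnion (one_mem Γ) ⟨x, hx, rfl⟩

/-- If `Γ' ≤ Γ` and `Γ'` has a rational polyhedral cone with `Γ' P = K`, then finite index. -/
theorem finiteIndex_of_cover {K : PointedCone ℝ V} {Γ Γ' : Subgroup (V ≃ₗ[ℝ] V)} (hle : Γ' ≤ Γ)
    (S : Setting L K Γ) {P : PointedCone ℝ V} (hP : IsRatPoly L P)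
    (hcov : (K : Set V) = ⋃ g ∈ Γ', (g : V → V) '' (P : Set V)) :
    (Γ'.subgroupOf Γ).FiniteIndex := by
  classical
  obtain ⟨f, hpos, hint, hstab⟩ := exists_functional L K Γ S.map_lattice S.map_cone S.salient
    S.interior_nonempty
  have hPK : P ≤ K := IsRatPoly.le_of_cover hcov
  obtain ⟨s, hsL, rfl⟩ := hP
  obtain ⟨Φ, hΦΓ, hΦne, hΦ⟩ := dickson s (Γ : Set (V ≃ₗ[ℝ] V)) ⟨1, one_mem Γ⟩ f (by
    intro g hg a ha
    exact nat_values (L := L) hpos hint (S.map_lattice g hg a (hsL ha))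
      (S.map_cone g hg a (hPK (Submodule.subset_span ha))))
  obtain ⟨z, hz⟩ := S.interior_nonempty
  have hzK : z ∈ K := interior_subset hz
  -- every coset of Γ' meets a finite set
  have hfin := finite_le L K (Γ : Set (V ≃ₗ[ℝ] V)) S.map_lattice S.map_cone f hpos z hz (f z)
  let F : Set (V ≃ₗ[ℝ] V) := (fun p : (V ≃ₗ[ℝ] V) × (V ≃ₗ[ℝ] V) => p.1⁻¹ * p.2) ''
    ((Φ : Set (V ≃ₗ[ℝ] V)) ×ˢ {g : V ≃ₗ[ℝ] V | g ∈ (Γ : Set (V ≃ₗ[ℝ] V)) ∧ f (g z) ≤ f z})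
  have hF : F.Finite := (Φ.finite_toSet.prod hfin).image _
  have hcos : ∀ γ ∈ Γ, ∃ γ' ∈ Γ', γ' * γ ∈ F := by
    intro γ hγ
    have h1 : γ z ∈ (K : Set V) := S.map_cone γ hγ z hzK
    rw [hcov] at h1
    simp only [mem_iUnion] at h1
    obtain ⟨g, hg, y, hy, hgy⟩ := h1
    refine ⟨g⁻¹, inv_mem hg, ?_⟩
    have hδ : g⁻¹ * γ ∈ Γ := mul_mem (inv_mem (hle hg)) hγ
    have hyδ : (g⁻¹ * γ) z = y := by
      show g⁻¹ (γ z) = y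
      rw [← hgy]
      exact g.symm_apply_apply y
    obtain ⟨φ, hφ, hφy⟩ := hΦ (g⁻¹ * γ)⁻¹ (inv_mem hδ)
    have h2 := hφy y hy
    have h3 : (g⁻¹ * γ)⁻¹ y = z := by
      rw [← hyδ]
      exact (g⁻¹ * γ).symm_apply_apply z
    rw [h3] at h2
    refine ⟨(φ, φ * (g⁻¹ * γ)), ⟨hφ, mul_mem (hΦΓ hφ) hδ, ?_⟩, ?_⟩
    · show f (φ ((g⁻¹ * γ) z)) ≤ f z
      rw [hyδ]; exact h2
    · show φ⁻¹ * (φ * (g⁻¹ * γ)) = g⁻¹ * γ
      group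
  -- conclude
  have hsurj : ∀ q : Γ ⧸ (Γ'.subgroupOf Γ), ∃ γ : Γ, (γ : V ≃ₗ[ℝ] V)⁻¹ ∈ F ∧
      (QuotientGroup.mk γ : Γ ⧸ (Γ'.subgroupOf Γ)) = q := by
    intro q
    obtain ⟨δ, rfl⟩ := QuotientGroup.mk_surjective q
    obtain ⟨γ', hγ', hmem⟩ := hcos (δ : V ≃ₗ[ℝ] V)⁻¹ (inv_mem δ.2)
    refine ⟨δ * ⟨γ'⁻¹, inv_mem (hle hγ')⟩, ?_, ?_⟩
    · show ((δ : V ≃ₗ[ℝ] V) * γ'⁻¹)⁻¹ ∈ F
      have : ((δ : V ≃ₗ[ℝ] V) * γ'⁻¹)⁻¹ = γ' * (δ : V ≃ₗ[ℝ] V)⁻¹ := by group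
      rw [this]; exact hmem
    · rw [QuotientGroup.eq, Subgroup.mem_subgroupOf]
      have : (((δ * ⟨γ'⁻¹, inv_mem (hle hγ')⟩ : Γ)⁻¹ * δ : Γ) : V ≃ₗ[ℝ] V) = γ' := by
        show ((δ : V ≃ₗ[ℝ] V) * γ'⁻¹)⁻¹ * (δ : V ≃ₗ[ℝ] V) = γ'
        group
      rw [this]
      exact hγ'
  have hFΓ : {γ : Γ | (γ : V ≃ₗ[ℝ] V)⁻¹ ∈ F}.Finite := by
    refine Set.Finite.of_finite_image (f := fun γ : Γ => (γ : V ≃ₗ[ℝ] V)⁻¹) (hF.subset ?_) ?_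
    · rintro _ ⟨γ, hγ, rfl⟩
      exact hγ
    · intro a _ b _ hab
      exact Subtype.ext (inv_injective hab)
  have : Finite (Γ ⧸ (Γ'.subgroupOf Γ)) := by
    have h1 := hFΓ.image (fun γ : Γ => (QuotientGroup.mk γ : Γ ⧸ (Γ'.subgroupOf Γ)))
    refine Set.finite_univ_iff.1 (h1.subset ?_)
    intro q _
    obtain ⟨γ, hγ, hq⟩ := hsurj q
    exact ⟨γ, hγ, hq⟩
  exact Subgroup.finiteIndex_of_finite_quotient

omit [FiniteDimensional ℝ V] [DiscreteTopology L] [IsZLattice ℝ L] in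
/-- finitely many translates of a rational polyhedral cone suffice for a finite index subgroup -/
theorem exists_cover_of_finiteIndex {K : PointedCone ℝ V} {Γ Γ' : Subgroup (V ≃ₗ[ℝ] V)}
    (hle : Γ' ≤ Γ) (S : Setting L K Γ) {P : PointedCone ℝ V} (hP : IsRatPoly L P)
    (hcov : (K : Set V) = ⋃ g ∈ Γ, (g : V → V) '' (P : Set V))
    (hfi : (Γ'.subgroupOf Γ).FiniteIndex) :
    ∃ Q : PointedCone ℝ V, IsRatPoly L Q ∧ (K : Set V) = ⋃ g ∈ Γ', (g : V → V) '' (Q : Set V) := by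
  classical
  have hPK : P ≤ K := IsRatPoly.le_of_cover hcov
  have hfq : Finite (Γ ⧸ (Γ'.subgroupOf Γ)) := Subgroup.finite_quotient_of_finiteIndex
  have := Fintype.ofFinite (Γ ⧸ (Γ'.subgroupOf Γ))
  -- representatives: `q.out⁻¹` represent the right cosets
  let r : Γ ⧸ (Γ'.subgroupOf Γ) → V ≃ₗ[ℝ] V := fun q => ((q.out : Γ) : V ≃ₗ[ℝ] V)⁻¹
  have hr : ∀ q, r q ∈ Γ := fun q => inv_mem (q.out).2
  let Q : PointedCone ℝ V := ⨆ q ∈ (Finset.univ : Finset (Γ ⧸ (Γ'.subgroupOf Γ))), imageCone (r q) P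
  have hQ : IsRatPoly L Q := IsRatPoly.biSup _ _ fun q _ => hP.image (r q) (S.map_lattice _ (hr q))
  have hQK : Q ≤ K := iSup₂_le fun q _ => imageCone_le fun x hx => S.map_cone _ (hr q) x (hPK hx)
  refine ⟨Q, hQ, Subset.antisymm ?_ ?_⟩
  · rw [hcov]
    refine iUnion₂_subset fun g hg => ?_
    rintro _ ⟨x, hx, rfl⟩
    -- write `g⁻¹ = q.out * γ'`
    let q : Γ ⧸ (Γ'.subgroupOf Γ) := QuotientGroup.mk (⟨g⁻¹, inv_mem hg⟩ : Γ)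
    have hq : (q.out : Γ)⁻¹ * (⟨g⁻¹, inv_mem hg⟩ : Γ) ∈ Γ'.subgroupOf Γ := by
      rw [← QuotientGroup.eq]
      exact QuotientGroup.out_eq' q
    rw [Subgroup.mem_subgroupOf] at hq
    have hq' : ((q.out : Γ) : V ≃ₗ[ℝ] V)⁻¹ * g⁻¹ ∈ Γ' := hq
    have hmem : (((q.out : Γ) : V ≃ₗ[ℝ] V)⁻¹ * g⁻¹)⁻¹ ∈ Γ' := inv_mem hq'
    refine mem_biUnion hmem ⟨r q x, ?_, ?_⟩
    · have h1 : imageCone (r q) P ≤ Q :=
        le_iSup₂ (f := fun q (_ : q ∈ (Finset.univ : Finset (Γ ⧸ (Γ'.subgroupOf Γ)))) =>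
          imageCone (r q) P) q (Finset.mem_univ q)
      exact h1 ⟨x, hx, rfl⟩
    · show ((((q.out : Γ) : V ≃ₗ[ℝ] V)⁻¹ * g⁻¹)⁻¹ * r q) x = g x
      have : ((((q.out : Γ) : V ≃ₗ[ℝ] V)⁻¹ * g⁻¹)⁻¹ * r q) = g := by
        show (((q.out : Γ) : V ≃ₗ[ℝ] V)⁻¹ * g⁻¹)⁻¹ * ((q.out : Γ) : V ≃ₗ[ℝ] V)⁻¹ = g
        group
      rw [this]
  · refine iUnion₂_subset fun g hg => ?_
    rintro _ ⟨x, hx, rfl⟩
    exact S.map_cone g (hle hg) x (hQK hx)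

omit [FiniteDimensional ℝ V] [DiscreteTopology L] [IsZLattice ℝ L] in
theorem Setting.mono {K : PointedCone ℝ V} {Γ Γ' : Subgroup (V ≃ₗ[ℝ] V)}
    (hle : Γ' ≤ Γ) (S : Setting L K Γ) : Setting L K Γ' where
  salient := S.salient
  interior_nonempty := S.interior_nonempty
  map_lattice := fun g hg => S.map_lattice g (hle hg)
  map_cone := fun g hg => S.map_cone g (hle hg)

/-- Comparison theorem. -/
theorem hasRPFD_subgroup_iff {K : PointedCone ℝ V} {Γ Γ' : Subgroup (V ≃ₗ[ℝ] V)}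
    (hle : Γ' ≤ Γ) (S : Setting L K Γ) :
    HasRPFD L Γ' K ↔ HasRPFD L Γ K ∧ (Γ'.subgroupOf Γ).FiniteIndex := by
  constructor
  · rintro ⟨P, hP, hcov, _⟩
    refine ⟨?_, finiteIndex_of_cover hle S hP hcov⟩
    have hPK : P ≤ K := IsRatPoly.le_of_cover hcov
    refine exists_fundDomain S hP (Subset.antisymm ?_ ?_)
    · conv_lhs => rw [hcov]
      exact iUnion₂_subset fun g hg => subset_biUnion_of_mem (u := fun g : V ≃ₗ[ℝ] V =>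
        (g : V → V) '' (P : Set V)) (hle hg)
    · refine iUnion₂_subset fun g hg => ?_
      rintro _ ⟨x, hx, rfl⟩
      exact S.map_cone g hg x (hPK hx)
  · rintro ⟨⟨P, hP, hcov, _⟩, hfi⟩
    obtain ⟨Q, hQ, hQcov⟩ := exists_cover_of_finiteIndex hle S hP hcov hfi
    exact exists_fundDomain (S.mono hle) hQ hQcov

end Pool.Agent.Lib.Pad47bb
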