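import Pool.Agent.Lib.Pad47bb.ExpAlg

/-!
The logarithmic lattice: elements of a finite-dimensional commutative real algebra whose exponential
preserves a given lattice form a discrete subgroup of a hyperplane.
-/

open NormedSpace Filter Topology

namespace Pool.Agent.Lib.Pad47bb

section loglattice

variable {R : Type*} [NormedCommRing R] [NormedAlgebra ℝ R] [FiniteDimensional ℝ R]

/-- the determinant of the multiplication by an element -/
noncomputable def mdet (x : R) : ℝ := (LinearMap.mulLeft ℝ x).det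

theorem mdet_mul (x y : R) : mdet (x * y) = mdet x * mdet y := by
  unfold mdet
  rw [← map_mul]
  congr 1
  ext z
  simp

theorem mdet_one : mdet (1 : R) = 1 := by
  unfold mdet
  rw [LinearMap.mulLeft_one]
  exact LinearMap.det_id

theorem mdet_cont : Continuous (mdet : R → ℝ) := by
  have h1 : (mdet : R → ℝ) = fun x => (ContinuousLinearMap.mul ℝ R x).det := by
    funext x
    rfl
  rw [h1]
  exact ContinuousLinearMap.continuous_det.comp (ContinuousLinearMap.mul ℝ R).continuous

theorem mdet_exp_pos (s : R) : 0 < mdet (exp s) := by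
  have h1 : exp s = exp ((1 / 2 : ℝ) • s) * exp ((1 / 2 : ℝ) • s) := by
    rw [← ex_add, ← add_smul]
    norm_num
  rw [h1, mdet_mul]
  have h2 : mdet (exp ((1 / 2 : ℝ) • s)) ≠ 0 := by
    intro h
    have h3 := mdet_mul (exp ((1 / 2 : ℝ) • s)) (exp (-((1 / 2 : ℝ) • s)))
    rw [ex_mul_neg, mdet_one, h, zero_mul] at h3
    exact one_ne_zero h3
  exact mul_self_pos.2 h2

/-- the linear functional `s ↦ log det (exp s)` -/
noncomputable def logDet (R : Type*) [NormedCommRing R] [NormedAlgebra ℝ R]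
    [FiniteDimensional ℝ R] : R →L[ℝ] ℝ :=
  AddMonoidHom.toRealLinearMap
    { toFun := fun s : R => Real.log (mdet (exp s))
      map_zero' := by simp [mdet_one]
      map_add' := fun x y => by
        rw [ex_add, mdet_mul, Real.log_mul (mdet_exp_pos x).ne' (mdet_exp_pos y).ne'] }
    (by
      show Continuous fun s : R => Real.log (mdet (exp s))
      refine Continuous.log (mdet_cont.comp ex_cont) fun x => (mdet_exp_pos x).ne')

theorem logDet_apply (s : R) : logDet R s = Real.log (mdet (exp s)) := rfl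

theorem logDet_one [Nontrivial R] : logDet R 1 ≠ 0 := by
  rw [logDet_apply]
  have h1 : exp (1 : R) = algebraMap ℝ R (Real.exp 1) := by
    have := algebraMap_exp_comm (𝕂 := ℝ) (𝔸 := R) 1
    rw [map_one] at this
    rw [← this, Real.exp_eq_exp_ℝ]
  rw [h1]
  have h2 : mdet (algebraMap ℝ R (Real.exp 1)) = (Real.exp 1) ^ Module.finrank ℝ R := by
    unfold mdet
    have : LinearMap.mulLeft ℝ (algebraMap ℝ R (Real.exp 1)) = (Real.exp 1) • LinearMap.id := by
      ext z
      simp [Algebra.algebraMap_eq_smul_one]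
    rw [this, LinearMap.det_smul, LinearMap.det_id, mul_one]
  rw [h2, Real.log_pow, Real.log_exp, mul_one]
  exact_mod_cast (Module.finrank_pos (R := ℝ) (M := R)).ne'

variable (L : Submodule ℤ R) [DiscreteTopology L] [IsZLattice ℝ L]

theorem mdet_int (a : R) (h : ∀ x ∈ L, a * x ∈ L) : ∃ n : ℤ, mdet a = n := by
  classical
  let b := Module.Free.chooseBasis ℤ L
  let bR := b.ofZLatticeBasis ℝ L
  let fa : L →ₗ[ℤ] L :=
    { toFun := fun x => ⟨a * x, h x x.2⟩
      map_add' := fun x y => by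
        ext
        simp [mul_add]
      map_smul' := fun n x => by
        ext
        simp [mul_left_comm] }
  refine ⟨(LinearMap.toMatrix b b fa).det, ?_⟩
  have key : LinearMap.toMatrix bR bR (LinearMap.mulLeft ℝ a) =
      (Int.castRingHom ℝ).mapMatrix (LinearMap.toMatrix b b fa) := by
    ext i j
    rw [LinearMap.toMatrix_apply]
    simp only [RingHom.mapMatrix_apply, Matrix.map_apply, LinearMap.toMatrix_apply]
    have h1 : LinearMap.mulLeft ℝ a (bR j) = ((fa (b j) : L) : R) := by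
      simp [bR, fa, b]
    rw [h1]
    exact b.ofZLatticeBasis_repr_apply ℝ L (fa (b j)) i
  unfold mdet
  rw [← LinearMap.det_toMatrix bR, key, ← RingHom.map_det]
  rfl

theorem mdet_sq (a a' : R) (h : ∀ x ∈ L, a * x ∈ L) (h' : ∀ x ∈ L, a' * x ∈ L)
    (haa : a * a' = 1) : (mdet a) ^ 2 = 1 := by
  obtain ⟨n, hn⟩ := mdet_int L a h
  obtain ⟨m, hm⟩ := mdet_int L a' h'
  have h1 : mdet a * mdet a' = 1 := by rw [← mdet_mul, haa, mdet_one]
  rw [hn, hm] at h1
  have h2 : n * m = 1 := by exact_mod_cast h1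
  rw [hn]
  have h3 : n ^ 2 = 1 := by
    rcases Int.eq_one_or_neg_one_of_mul_eq_one h2 with h | h <;> simp [h]
  exact_mod_cast h3

theorem lattice_gap {V : Type*} [NormedAddCommGroup V] (L : Submodule ℤ V) [DiscreteTopology L] :
    ∃ r > 0, ∀ x ∈ L, ‖x‖ < r → x = 0 := by
  have h : IsOpen ({0} : Set L) := isOpen_discrete _
  obtain ⟨r, hr, hb⟩ := Metric.isOpen_iff.1 h 0 rfl
  refine ⟨r, hr, fun x hx hxr => ?_⟩
  have : (⟨x, hx⟩ : L) ∈ ({0} : Set L) := hb (by
    rw [Metric.mem_ball, dist_eq_norm, sub_zero]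
    exact hxr)
  simpa using congrArg Subtype.val (Set.mem_singleton_iff.1 this)

theorem eq_one_of_near :
    ∃ ε > 0, ∀ w : R, (∀ x ∈ L, w * x ∈ L) → ‖w - 1‖ < ε → w = 1 := by
  obtain ⟨r, hr, hgap⟩ := lattice_gap L
  let b := Module.Free.chooseBasis ℤ L
  let bR := b.ofZLatticeBasis ℝ L
  obtain ⟨M, hM⟩ : ∃ M : ℝ, ∀ i, ‖bR i‖ ≤ M := by
    obtain ⟨M, hM⟩ := (Set.finite_range fun i => ‖bR i‖).bddAbove
    exact ⟨M, fun i => hM ⟨i, rfl⟩⟩
  have hM1 : 0 < |M| + 1 := by positivity
  refine ⟨r / (|M| + 1), div_pos hr hM1, fun w hw hnear => ?_⟩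
  have h1 : ∀ i, (w - 1) * bR i = 0 := by
    intro i
    have hbi : bR i ∈ L := by
      simp [bR]
    apply hgap
    · rw [sub_mul, one_mul]
      exact sub_mem (hw _ hbi) hbi
    · calc ‖(w - 1) * bR i‖ ≤ ‖w - 1‖ * ‖bR i‖ := norm_mul_le _ _
        _ ≤ ‖w - 1‖ * (|M| + 1) := by
            refine mul_le_mul_of_nonneg_left ?_ (norm_nonneg _)
            linarith [hM i, le_abs_self M]
        _ < r / (|M| + 1) * (|M| + 1) := by
            exact mul_lt_mul_of_pos_right hnear hM1
        _ = r := by field_simp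
  have h2 : LinearMap.mulLeft ℝ (w - 1) = 0 := by
    apply bR.ext
    intro i
    simpa using h1 i
  have h3 : (w - 1) * 1 = 0 := by
    have := LinearMap.congr_fun h2 1
    simpa using this
  rw [mul_one] at h3
  exact sub_eq_zero.1 h3

/-- The group of logarithms of the units preserving the lattice. -/
noncomputable def logLat (L : Submodule ℤ R) : Submodule ℤ R where
  carrier := {s | (∀ x ∈ L, exp s * x ∈ L) ∧ ∀ x ∈ L, exp (-s) * x ∈ L}
  add_mem' := by
    rintro s t ⟨hs, hs'⟩ ⟨ht, ht'⟩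
    refine ⟨fun x hx => ?_, fun x hx => ?_⟩
    · rw [ex_add, mul_assoc]
      exact hs _ (ht _ hx)
    · rw [neg_add, ex_add, mul_assoc]
      exact hs' _ (ht' _ hx)
  zero_mem' := ⟨fun x hx => by simpa using hx, fun x hx => by simpa using hx⟩
  smul_mem' := by
    intro n s hs
    have key : ∀ m : ℕ, (∀ x ∈ L, exp (m • s) * x ∈ L) ∧ ∀ x ∈ L, exp (-(m • s)) * x ∈ L := by
      intro m
      induction m with
      | zero => exact ⟨fun x hx => by simpa using hx, fun x hx => by simpa using hx⟩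
      | succ m ih =>
        refine ⟨fun x hx => ?_, fun x hx => ?_⟩
        · rw [succ_nsmul, ex_add, mul_assoc]
          exact ih.1 _ (hs.1 _ hx)
        · rw [succ_nsmul, neg_add, ex_add, mul_assoc]
          exact ih.2 _ (hs.2 _ hx)
    obtain ⟨m, rfl | rfl⟩ := n.eq_nat_or_neg
    · simpa using key m
    · have := key m
      refine ⟨fun x hx => ?_, fun x hx => ?_⟩
      · have h := this.2 x hx
        simpa using h
      · have h := this.1 x hx
        simpa using h

theorem mem_logLat {L : Submodule ℤ R} {s : R} :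
    s ∈ logLat L ↔ (∀ x ∈ L, exp s * x ∈ L) ∧ ∀ x ∈ L, exp (-s) * x ∈ L := Iff.rfl

theorem logLat_gap : ∃ ε > 0, ∀ s ∈ logLat L, ‖s‖ < ε → s = 0 := by
  obtain ⟨ε₁, hε₁, h1⟩ := ex_inj (R := R)
  obtain ⟨ε₂, hε₂, h2⟩ := eq_one_of_near L
  obtain ⟨ε₃, hε₃, h3⟩ := Metric.continuousAt_iff.1
    ((ex_cont (R := R)).continuousAt (x := (0 : R))) ε₂ hε₂
  refine ⟨min ε₁ ε₃, lt_min hε₁ hε₃, fun s hs hn => ?_⟩
  apply h1 s (hn.trans_le (min_le_left _ _))
  apply h2 _ hs.1
  have := h3 (x := s) (by simpa using hn.trans_le (min_le_right _ _))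
  rwa [exp_zero, dist_eq_norm] at this

theorem discrete_of_gap {V : Type*} [NormedAddCommGroup V] (Λ : Submodule ℤ V)
    (h : ∃ ε > 0, ∀ s ∈ Λ, ‖s‖ < ε → s = 0) : DiscreteTopology Λ := by
  obtain ⟨ε, hε, h⟩ := h
  refine discreteTopology_of_isOpen_singleton_zero ?_
  rw [Metric.isOpen_iff]
  rintro x hx
  rw [Set.mem_singleton_iff] at hx
  subst hx
  refine ⟨ε, hε, fun y hy => ?_⟩
  rw [Metric.mem_ball, dist_eq_norm, sub_zero] at hy
  rw [Set.mem_singleton_iff]
  ext
  exact h y y.2 hy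

theorem logDet_of_mem {s : R} (hs : s ∈ logLat L) : logDet R s = 0 := by
  have h1 := mdet_sq L (exp s) (exp (-s)) hs.1 hs.2 (ex_mul_neg s)
  have h2 := mdet_exp_pos s
  have h3 : mdet (exp s) = 1 := by nlinarith
  rw [logDet_apply, h3, Real.log_one]

theorem linearIndependent_real {V : Type*} [NormedAddCommGroup V] [NormedSpace ℝ V]
    [FiniteDimensional ℝ V] {ι : Type*} [Fintype ι] (v : ι → V) (hv : LinearIndependent ℤ v)
    (hgap : ∃ ε > 0, ∀ s ∈ Submodule.span ℤ (Set.range v), ‖s‖ < ε → s = 0) :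
    LinearIndependent ℝ v := by
  have hd := discrete_of_gap _ hgap
  rw [linearIndependent_iff_card_eq_finrank_span, Real.finrank_eq_int_finrank_of_discrete hd]
  exact (finrank_span_eq_card hv).symm

theorem logLat_linearIndependent {ι : Type*} [Fintype ι] (v : ι → R) (hv : LinearIndependent ℤ v)
    (hmem : ∀ i, v i ∈ logLat L) : LinearIndependent ℝ v := by
  refine linearIndependent_real v hv ?_
  obtain ⟨ε, hε, h⟩ := logLat_gap L
  refine ⟨ε, hε, fun s hs => h s ?_⟩
  have : Submodule.span ℤ (Set.range v) ≤ logLat L := by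
    rw [Submodule.span_le]
    rintro _ ⟨i, rfl⟩
    exact hmem i
  exact this hs

theorem card_lt_finrank [Nontrivial R] {ι : Type*} [Fintype ι] (v : ι → R)
    (hv : LinearIndependent ℤ v)
    (hmem : ∀ i, v i ∈ logLat L) : Fintype.card ι < Module.finrank ℝ R := by
  have h1 := logLat_linearIndependent L v hv hmem
  have h2 : Submodule.span ℝ (Set.range v) ≤ LinearMap.ker (logDet R : R →ₗ[ℝ] ℝ) := by
    rw [Submodule.span_le]
    rintro _ ⟨i, rfl⟩
    exact logDet_of_mem L (hmem i)
  have h3 : Submodule.span ℝ (Set.range v) < ⊤ := by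
    refine lt_of_le_of_lt h2 ?_
    rw [lt_top_iff_ne_top]
    intro h
    have : (1 : R) ∈ LinearMap.ker (logDet R : R →ₗ[ℝ] ℝ) := h ▸ Submodule.mem_top
    exact logDet_one this
  have h4 := Submodule.finrank_lt h3.ne
  rwa [finrank_span_eq_card h1] at h4

end loglattice

end Pool.Agent.Lib.Pad47bb
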