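import Pool.Agent.Lib.Pad47bb.Model

/-!
Free abelian groups of maximal rank `dim V - 1` preserving a lattice and a salient cone.
-/

open Set Topology NormedSpace Filter

namespace Pool.Agent.Lib.Pad47bb

universe u

section

variable {V : Type u} [NormedAddCommGroup V] [NormedSpace ℝ V] [FiniteDimensional ℝ V]
  {m : ℕ} (φ : Multiplicative (Fin m → ℤ) →* (V ≃ₗ[ℝ] V))

/-- restriction of the action to an invariant subspace -/
noncomputable def restr (W : Submodule ℝ V) (hW : ∀ k, ∀ w ∈ W, act φ k w ∈ W) :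
    Multiplicative (Fin m → ℤ) →* (W ≃ₗ[ℝ] W) where
  toFun k :=
    { toFun := fun w => ⟨act φ (Multiplicative.toAdd k) w, hW _ w w.2⟩
      invFun := fun w => ⟨act φ (-Multiplicative.toAdd k) w, hW _ w w.2⟩
      map_add' := fun w w' => by
        ext
        exact map_add _ _ _
      map_smul' := fun t w => by
        ext
        exact map_smul _ _ _
      left_inv := fun w => by
        ext
        show act φ (-Multiplicative.toAdd k) (act φ (Multiplicative.toAdd k) w) = w
        rw [← act_add, neg_add_cancel, act_zero]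
      right_inv := fun w => by
        ext
        show act φ (Multiplicative.toAdd k) (act φ (-Multiplicative.toAdd k) w) = w
        rw [← act_add, add_neg_cancel, act_zero] }
  map_one' := by
    ext w
    exact act_zero φ w
  map_mul' k l := by
    ext w
    exact act_add φ (Multiplicative.toAdd k) (Multiplicative.toAdd l) w

theorem restr_apply (W : Submodule ℝ V) (hW : ∀ k, ∀ w ∈ W, act φ k w ∈ W) (k : Fin m → ℤ)
    (w : W) : ((act (restr φ W hW) k w : W) : V) = act φ k w := rfl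

variable (hφ : Function.Injective φ)
    (L : Submodule ℤ V) [DiscreteTopology L] [IsZLattice ℝ L] (K : PointedCone ℝ V)
    (hs : ∀ x ∈ closure (K : Set V), -x ∈ closure (K : Set V) → x = 0)
    (hL : ∀ k, ∀ v ∈ L, act φ k v ∈ L) (hK : ∀ k, ∀ v ∈ K, act φ k v ∈ K)

include hφ hs hL hK in
/-- an interior lattice point is cyclic when the rank is maximal -/
theorem cyclic_of_maxRank (hm : m + 1 = Module.finrank ℝ V) {x : V}
    (hx : x ∈ interior (K : Set V)) (hx0 : x ≠ 0) (hxL : x ∈ L) :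
    ∀ W : Submodule ℝ V, x ∈ W → (∀ k, ∀ w ∈ W, act φ k w ∈ W) → W = ⊤ := by
  let S : Set V := range fun k : Fin m → ℤ => act φ k x
  let W₀ : Submodule ℝ V := Submodule.span ℝ S
  have hxS : x ∈ S := ⟨0, act_zero φ x⟩
  have hW₀ : ∀ k, ∀ w ∈ W₀, act φ k w ∈ W₀ := by
    intro k w hw
    have h1 : W₀ ≤ W₀.comap (act φ k : V →ₗ[ℝ] V) := by
      refine Submodule.span_le.2 ?_
      rintro _ ⟨l, rfl⟩
      refine Submodule.subset_span ⟨k + l, ?_⟩
      exact act_add φ k l x
    exact h1 hw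
  have htop : W₀ = ⊤ := by
    let ψ := restr φ W₀ hW₀
    have hψ : Function.Injective ψ := by
      rw [injective_iff_map_eq_one]
      intro k hk
      have h1 : act φ (Multiplicative.toAdd k) x = x := by
        have h2 : ψ k ⟨x, Submodule.subset_span hxS⟩ = ⟨x, Submodule.subset_span hxS⟩ := by
          rw [hk]
          rfl
        exact congrArg Subtype.val h2
      have h2 := stab_trivial φ hφ L K hs hL hK hx h1
      exact Multiplicative.toAdd.injective h2
    let LW : Submodule ℤ W₀ := ZLattice.comap ℝ L W₀.subtype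
    haveI : DiscreteTopology LW := ZLattice.comap_discreteTopology ℝ L
      W₀.subtypeL.continuous (Submodule.subtype_injective W₀)
    have hSL : S ⊆ L := by
      rintro _ ⟨k, rfl⟩
      exact hL k x hxL
    haveI : IsZLattice ℝ LW := ⟨by
      refine eq_top_iff.mpr ?_
      refine (Submodule.span_span_coe_preimage (s := S)).symm.le.trans ?_
      refine Submodule.span_mono ?_
      intro w hw
      exact hSL hw⟩
    haveI : Nontrivial W₀ := ⟨⟨⟨x, Submodule.subset_span hxS⟩, 0, fun h => hx0 (by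
      simpa using congrArg Subtype.val h)⟩⟩
    have hLW : ∀ k, ∀ v ∈ LW, act ψ k v ∈ LW := by
      intro k v hv
      exact hL k v hv
    have hcyc : ∀ W' : Submodule ℝ W₀, (⟨x, Submodule.subset_span hxS⟩ : W₀) ∈ W' →
        (∀ k, ∀ w ∈ W', act ψ k w ∈ W') → W' = ⊤ := by
      intro W' hx' hW'
      have h1 : W₀ ≤ W'.map W₀.subtype := by
        refine Submodule.span_le.2 ?_
        rintro _ ⟨k, rfl⟩
        exact ⟨_, hW' k _ hx', rfl⟩
      rw [eq_top_iff]
      intro w _
      obtain ⟨w', hw', hww'⟩ := h1 w.2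
      have : w' = w := Subtype.ext hww'
      rwa [← this]
    have h1 := rank_lt_of_cyclic ψ hψ LW hLW _ hcyc
    apply Submodule.eq_top_of_finrank_eq
    have h2 := Submodule.finrank_le W₀
    omega
  intro W hxW hW
  rw [eq_top_iff, ← htop]
  refine Submodule.span_le.2 ?_
  rintro _ ⟨k, rfl⟩
  exact hW k x hxW

include hφ hs hL hK in
/-- Structure theorem in maximal rank. -/
theorem structure_of_maxRank (hm : m + 1 = Module.finrank ℝ V)
    (hint : (interior (K : Set V)).Nonempty) :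
    ∃ (J : Type) (_ : Fintype J) (F : V ≃L[ℝ] (J → ℝ)),
      (∀ C : PointedCone ℝ V, IsClosed (C : Set V) → (∀ x ∈ C, -x ∈ C → x = 0) → K ≤ C →
        (∀ k, ∀ v ∈ C, act φ k v ∈ C) → ∀ v, v ∈ C ↔ ∀ j, 0 ≤ F v j) ∧
      (∀ y ∈ L, y ≠ 0 → (∀ j, 0 ≤ F y j) → ∀ j, 0 < F y j) ∧
      ∃ Q : Set V, IsCompact Q ∧ (∀ q ∈ Q, ∀ j, 0 < F q j) ∧
        ∀ v, (∀ j, 0 < F v j) → ∃ c : ℝ, 0 < c ∧ ∃ k, ∃ q ∈ Q, v = c • act φ k q := by
  haveI : Nontrivial V := Module.nontrivial_of_finrank_pos (R := ℝ) (by omega)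
  obtain ⟨x, hxL, hx0, hx⟩ := exists_lattice_interior L hint
  have hcyc := cyclic_of_maxRank φ hφ L K hs hL hK hm hx hx0 hxL
  obtain ⟨R, i1, i2, i3, ⟨M⟩⟩ := exists_model φ x hcyc
  let LR : Submodule ℤ R := ZLattice.comap ℝ L M.ev.toLinearMap
  have hMR : MaxRank LR M.lam :=
    { mem := M.mem_logLat L hL
      mul_indep := M.mul_indep hφ
      card := by rw [Fintype.card_fin, M.ev.toLinearEquiv.finrank_eq, hm] }
  -- the closure of `K`
  let K' : PointedCone ℝ V := PointedCone.closure K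
  have hK'cl : IsClosed (K' : Set V) := isClosed_closure
  have hK's : ∀ x ∈ K', -x ∈ K' → x = 0 := fun x hx hx' => hs x hx hx'
  have hK'inv : ∀ k, ∀ v ∈ K', act φ k v ∈ K' := by
    intro k v hv
    have hc : Continuous (act φ k : V → V) :=
      (act φ k).toLinearMap.continuous_of_finiteDimensional
    have h1 : MapsTo (act φ k : V → V) (K : Set V) K := fun v hv => hK k v hv
    exact h1.closure hc hv
  -- facts on pulled back cones
  have hcone : ∀ C : PointedCone ℝ V, IsClosed (C : Set V) → (∀ x ∈ C, -x ∈ C → x = 0) → K ≤ C →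
      (∀ k, ∀ v ∈ C, act φ k v ∈ C) →
      IsClosed ((M.cone C : PointedCone ℝ R) : Set R) ∧ (∀ r ∈ M.cone C, -r ∈ M.cone C → r = 0) ∧
      (1 : R) ∈ M.cone C ∧ ∀ i, M.lam i ∈ coneLat (M.cone C) := by
    intro C hCcl hCs hKC hCinv
    refine ⟨hCcl.preimage M.ev.continuous, ?_, ?_, M.mem_coneLat hCinv⟩
    · intro r hr hr'
      have h1 : M.ev r = 0 := hCs _ hr (by
        have : M.ev (-r) ∈ C := hr'
        rwa [map_neg] at this)
      exact M.ev.map_eq_zero_iff.1 h1
    · show M.ev 1 ∈ C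
      rw [M.ev_one]
      exact hKC (interior_subset hx)
  obtain ⟨h1, h2, h3, h4⟩ := hcone K' hK'cl hK's (fun x hx => subset_closure hx) hK'inv
  obtain ⟨J, iJ, ⟨e⟩⟩ := exists_split (R := R)
    (fun ν hν => hMR.sq_zero h1 h2 h3 h4 hν) (fun κ hκ => hMR.exp_inj hκ)
  let e' : R ≃L[ℝ] (J → ℝ) := e.toLinearEquiv.toContinuousLinearEquiv
  let F : V ≃L[ℝ] (J → ℝ) := M.ev.symm.trans e'
  have hF : ∀ v, F v = e (M.ev.symm v) := fun v => rfl
  have hFe : ∀ r, F (M.ev r) = e r := fun r => by rw [hF, M.ev.symm_apply_apply]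
  refine ⟨J, iJ, F, ?_, ?_, ?_⟩
  · intro C hCcl hCs hKC hCinv v
    obtain ⟨g1, g2, g3, g4⟩ := hcone C hCcl hCs hKC hCinv
    have := hMR.cone_eq e g1 g2 g3 g4 (M.ev.symm v)
    rw [hF, ← this, M.mem_cone, M.ev.apply_symm_apply]
  · intro y hyL hy0 hy j
    refine hMR.lattice_pos e (y := M.ev.symm y) ?_ ?_ hy j
    · show M.ev (M.ev.symm y) ∈ L
      rw [M.ev.apply_symm_apply]
      exact hyL
    · intro h
      exact hy0 (M.ev.symm.map_eq_zero_iff.1 h)
  · obtain ⟨Q, hQ, hQpos, hQcov⟩ := hMR.cocompact e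
    refine ⟨M.ev '' Q, hQ.image M.ev.continuous, ?_, ?_⟩
    · rintro _ ⟨q, hq, rfl⟩ j
      rw [hFe]
      exact hQpos q hq j
    · intro v hv
      obtain ⟨c, hc, s, hs', q, hq, hvq⟩ := hQcov (M.ev.symm v) hv
      obtain ⟨k, hk⟩ := (Submodule.mem_span_range_iff_exists_fun ℤ).1 hs'
      refine ⟨c, hc, 2 • k, M.ev q, ⟨q, hq, rfl⟩, ?_⟩
      rw [← M.ev_exp k q, hk, ← map_smul, ← hvq, M.ev.apply_symm_apply]

end

end Pool.Agent.Lib.Pad47bb
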