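import Pool.Agent.Lib.Pad47bb.LogLattice

/-!
Closed salient cones in a finite-dimensional commutative real algebra that are invariant under a
multiplicative group of maximal rank.
-/

open NormedSpace Filter Topology

namespace Pool.Agent.Lib.Pad47bb

section core

variable {R : Type*} [NormedCommRing R] [NormedAlgebra ℝ R] [FiniteDimensional ℝ R]

/-- the data of a multiplicative group of maximal rank `dim R - 1` preserving a lattice `L` -/
structure MaxRank (L : Submodule ℤ R) {ι : Type*} [Fintype ι] (lam : ι → R) : Prop where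
  mem : ∀ i, lam i ∈ logLat L
  mul_indep : ∀ k : ι → ℤ, exp (∑ i, k i • lam i) = 1 → k = 0
  card : Fintype.card ι + 1 = Module.finrank ℝ R

variable {L : Submodule ℤ R} [DiscreteTopology L] [IsZLattice ℝ L] {ι : Type*} [Fintype ι]
  {lam : ι → R}

theorem MaxRank.nontrivial (h : MaxRank L lam) : Nontrivial R := by
  have : 0 < Module.finrank ℝ R := by rw [← h.card]; omega
  exact Module.nontrivial_of_finrank_pos this

theorem MaxRank.int_indep (h : MaxRank L lam) : LinearIndependent ℤ lam := by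
  rw [Fintype.linearIndependent_iff]
  intro k hk
  have := h.mul_indep k (by rw [hk, exp_zero])
  intro i
  rw [this]
  rfl

theorem exp_zsmul_one {κ : R} (hκ : exp κ = 1) (n : ℤ) : exp (n • κ) = 1 := by
  have key : ∀ m : ℕ, exp (m • κ) = 1 := by
    intro m
    induction m with
    | zero => simp
    | succ m ih => rw [succ_nsmul, ex_add, ih, hκ, one_mul]
  obtain ⟨m, rfl | rfl⟩ := n.eq_nat_or_neg
  · simpa using key m
  · have h1 := ex_mul_neg (m • κ)
    rw [key m, one_mul] at h1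
    simpa using h1

theorem MaxRank.exp_inj (h : MaxRank L lam) {κ : R} (hκ : exp κ = 1) : κ = 0 := by
  by_contra hne
  haveI := h.nontrivial
  have hL : κ ∈ logLat L := by
    have h1 : exp (-κ) = 1 := by
      have := ex_mul_neg κ
      rwa [hκ, one_mul] at this
    refine ⟨fun x hx => ?_, fun x hx => ?_⟩
    · rw [hκ, one_mul]; exact hx
    · rw [h1, one_mul]; exact hx
  let v : Option ι → R := fun o => o.elim κ lam
  have hv : LinearIndependent ℤ v := by
    rw [Fintype.linearIndependent_iff]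
    intro k hk
    rw [Fintype.sum_option] at hk
    simp only [v, Option.elim_none, Option.elim_some] at hk
    have h1 : exp (∑ i, k (some i) • lam i) = 1 := by
      have h2 : exp (k none • κ + ∑ i, k (some i) • lam i) = 1 := by rw [hk, exp_zero]
      rw [ex_add, exp_zsmul_one hκ, one_mul] at h2
      exact h2
    have h3 := h.mul_indep _ h1
    have h4 : ∀ i, k (some i) = 0 := fun i => congrFun h3 i
    simp only [h4, zero_smul, Finset.sum_const_zero, add_zero] at hk
    have h5 : k none = 0 := by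
      rw [← Int.cast_smul_eq_zsmul ℝ] at hk
      rcases smul_eq_zero.1 hk with h | h
      · exact_mod_cast h
      · exact absurd h hne
    intro o
    cases o with
    | none => exact h5
    | some i => exact h4 i
  have h6 := card_lt_finrank L v hv (by
    intro o
    cases o with
    | none => exact hL
    | some i => exact h.mem i)
  rw [Fintype.card_option, h.card] at h6
  exact lt_irrefl _ h6

theorem MaxRank.real_indep (h : MaxRank L lam) : LinearIndependent ℝ lam :=
  logLat_linearIndependent L lam h.int_indep h.mem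

theorem MaxRank.mem_span (h : MaxRank L lam) {x : R} (hx : logDet R x = 0) :
    ∃ c : ι → ℝ, ∑ i, c i • lam i = x := by
  haveI := h.nontrivial
  rw [← Submodule.mem_span_range_iff_exists_fun]
  have h1 : Submodule.span ℝ (Set.range lam) ≤ LinearMap.ker (logDet R : R →ₗ[ℝ] ℝ) := by
    rw [Submodule.span_le]
    rintro _ ⟨i, rfl⟩
    exact logDet_of_mem L (h.mem i)
  have h2 : Module.finrank ℝ (Submodule.span ℝ (Set.range lam)) = Fintype.card ι :=
    finrank_span_eq_card h.real_indep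
  have h3 : Module.finrank ℝ (LinearMap.ker (logDet R : R →ₗ[ℝ] ℝ)) = Fintype.card ι := by
    have h4 := LinearMap.finrank_range_add_finrank_ker (logDet R : R →ₗ[ℝ] ℝ)
    have h5 : Module.finrank ℝ (LinearMap.range (logDet R : R →ₗ[ℝ] ℝ)) = 1 := by
      have : LinearMap.range (logDet R : R →ₗ[ℝ] ℝ) = ⊤ := by
        rw [LinearMap.range_eq_top]
        intro y
        refine ⟨(y / logDet R 1) • 1, ?_⟩
        show logDet R ((y / logDet R 1) • 1) = y
        rw [map_smul, smul_eq_mul, div_mul_cancel₀ _ logDet_one]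
      rw [this, finrank_top, Module.finrank_self]
    have h6 := h.card
    omega
  have h7 : Submodule.span ℝ (Set.range lam) = LinearMap.ker (logDet R : R →ₗ[ℝ] ℝ) :=
    Submodule.eq_of_le_of_finrank_eq h1 (h2.trans h3.symm)
  rw [h7]
  exact hx

/-- recurrence: the line through any element of the hyperplane comes back close to the lattice -/
theorem MaxRank.recurrence (h : MaxRank L lam) {x : R} (hx : logDet R x = 0) (N : ℕ) {ε : ℝ}
    (hε : 0 < ε) : ∃ τ : ℝ, (N : ℝ) ≤ τ ∧ ∃ β : R, ‖β‖ < ε ∧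
      τ • x + β ∈ Submodule.span ℤ (Set.range lam) := by
  obtain ⟨c, rfl⟩ := h.mem_span hx
  let y : ℕ → ι → ℝ := fun k i => Int.fract ((k * N : ℕ) * c i)
  have hy : ∀ k, y k ∈ Set.Icc (0 : ι → ℝ) 1 := fun k =>
    ⟨fun i => Int.fract_nonneg _, fun i => (Int.fract_lt_one _).le⟩
  obtain ⟨a, -, φ, hφ, ha⟩ := isCompact_Icc.tendsto_subseq hy
  let M : ℝ := ∑ i, ‖lam i‖ + 1
  have hM : 0 < M := by
    have : 0 ≤ ∑ i, ‖lam i‖ := Finset.sum_nonneg fun i _ => norm_nonneg _
    positivity
  have hcau := ha.cauchySeq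
  obtain ⟨n, hn⟩ := Metric.cauchySeq_iff.1 hcau (ε / M) (div_pos hε hM)
  have hd := hn (n + 1) (Nat.le_succ n) n le_rfl
  have hlt : φ n < φ (n + 1) := hφ (Nat.lt_succ_self n)
  let τ : ℝ := ((φ (n + 1) - φ n : ℕ) : ℝ) * N
  have hcast : ((φ (n + 1) - φ n : ℕ) : ℝ) = (φ (n + 1) : ℝ) - φ n := by
    rw [Nat.cast_sub hlt.le]
  refine ⟨τ, ?_, -(∑ i, (y (φ (n + 1)) i - y (φ n) i) • lam i), ?_, ?_⟩
  · have : (1 : ℝ) ≤ ((φ (n + 1) - φ n : ℕ) : ℝ) := by
      have : 1 ≤ φ (n + 1) - φ n := by omega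
      exact_mod_cast this
    have hN : (0 : ℝ) ≤ N := Nat.cast_nonneg N
    show (N : ℝ) ≤ ((φ (n + 1) - φ n : ℕ) : ℝ) * N
    nlinarith
  · rw [norm_neg]
    calc ‖∑ i, (y (φ (n + 1)) i - y (φ n) i) • lam i‖
        ≤ ∑ i, ‖(y (φ (n + 1)) i - y (φ n) i) • lam i‖ := norm_sum_le _ _
      _ ≤ ∑ i, (dist (y (φ (n + 1))) (y (φ n))) * ‖lam i‖ := by
          refine Finset.sum_le_sum fun i _ => ?_
          rw [norm_smul]
          refine mul_le_mul_of_nonneg_right ?_ (norm_nonneg _)
          have := dist_le_pi_dist (y (φ (n + 1))) (y (φ n)) i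
          rwa [Real.dist_eq] at this
      _ = (dist (y (φ (n + 1))) (y (φ n))) * ∑ i, ‖lam i‖ := by rw [Finset.mul_sum]
      _ ≤ (dist (y (φ (n + 1))) (y (φ n))) * M := by
          refine mul_le_mul_of_nonneg_left ?_ dist_nonneg
          show ∑ i, ‖lam i‖ ≤ ∑ i, ‖lam i‖ + 1
          linarith
      _ < ε / M * M := mul_lt_mul_of_pos_right hd hM
      _ = ε := by field_simp
  · have hkey : τ • ∑ i, c i • lam i + -(∑ i, (y (φ (n + 1)) i - y (φ n) i) • lam i) =
        ∑ i, (⌊((φ (n + 1) * N : ℕ) : ℝ) * c i⌋ - ⌊((φ n * N : ℕ) : ℝ) * c i⌋) • lam i := by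
      rw [← sub_eq_add_neg, Finset.smul_sum, ← Finset.sum_sub_distrib]
      refine Finset.sum_congr rfl fun i _ => ?_
      rw [smul_smul, ← sub_smul, ← Int.cast_smul_eq_zsmul ℝ]
      congr 1
      show τ * c i - (Int.fract (((φ (n + 1) * N : ℕ) : ℝ) * c i) -
        Int.fract (((φ n * N : ℕ) : ℝ) * c i)) = _
      rw [Int.fract, Int.fract]
      push_cast
      show ((φ (n + 1) - φ n : ℕ) : ℝ) * N * c i - _ = _
      rw [hcast]
      ring
    rw [hkey]
    exact Submodule.sum_mem _ fun i _ =>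
      Submodule.smul_mem _ _ (Submodule.subset_span ⟨i, rfl⟩)


/-- logarithms of units preserving a cone -/
noncomputable def coneLat (C : PointedCone ℝ R) : Submodule ℤ R where
  carrier := {s | (∀ x ∈ C, exp s * x ∈ C) ∧ ∀ x ∈ C, exp (-s) * x ∈ C}
  add_mem' := by
    rintro s t ⟨hs, hs'⟩ ⟨ht, ht'⟩
    refine ⟨fun x hx => ?_, fun x hx => ?_⟩
    · rw [ex_add, mul_assoc]
      exact hs _ (ht _ hx)
    · rw [neg_add, ex_add, mul_assoc]
      exact hs' _ (ht' _ hx)
  zero_mem' := ⟨fun x hx => by simpa using hx, fun x hx => by simpa using hx⟩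
  smul_mem' := by
    intro n s hs
    have key : ∀ m : ℕ, (∀ x ∈ C, exp (m • s) * x ∈ C) ∧ ∀ x ∈ C, exp (-(m • s)) * x ∈ C := by
      intro m
      induction m with
      | zero => exact ⟨fun x hx => by simpa using hx, fun x hx => by simpa using hx⟩
      | succ m ih =>
        refine ⟨fun x hx => ?_, fun x hx => ?_⟩
        · rw [succ_nsmul, ex_add, mul_assoc]
          exact ih.1 _ (hs.1 _ hx)
        · rw [succ_nsmul, neg_add, ex_add, mul_assoc]
          exact ih.2 _ (hs.2 _ hx)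
    obtain ⟨m, rfl | rfl⟩ := n.eq_nat_or_neg
    · simpa using key m
    · have := key m
      refine ⟨fun x hx => ?_, fun x hx => ?_⟩
      · have h := this.2 x hx
        simpa using h
      · have h := this.1 x hx
        simpa using h

theorem coneLat_span {C : PointedCone ℝ R} (hC : ∀ i, lam i ∈ coneLat C) {s : R}
    (hs : s ∈ Submodule.span ℤ (Set.range lam)) {x : R} (hx : x ∈ C) : exp s * x ∈ C := by
  have h1 : Submodule.span ℤ (Set.range lam) ≤ coneLat C := by
    rw [Submodule.span_le]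
    rintro _ ⟨i, rfl⟩
    exact hC i
  exact (h1 hs).1 x hx

theorem mdet_one_add_nilpotent {ν : R} (hν : IsNilpotent ν) : mdet (1 + ν) = 1 := by
  classical
  let B := Module.finBasis ℝ R
  let N := LinearMap.toMatrix B B (LinearMap.mulLeft ℝ ν)
  have hN : IsNilpotent N := by
    obtain ⟨n, hn⟩ := hν
    refine ⟨n, ?_⟩
    show (LinearMap.toMatrix B B (LinearMap.mulLeft ℝ ν)) ^ n = 0
    have h1 : (LinearMap.mulLeft ℝ ν) ^ n = 0 := by
      rw [LinearMap.pow_mulLeft, hn, LinearMap.mulLeft_zero_eq_zero]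
    have h2 : ∀ k : ℕ, (LinearMap.toMatrix B B (LinearMap.mulLeft ℝ ν)) ^ k =
        LinearMap.toMatrix B B ((LinearMap.mulLeft ℝ ν) ^ k) := by
      intro k
      induction k with
      | zero => simp [LinearMap.toMatrix_one]
      | succ k ih => rw [pow_succ, pow_succ, ih, LinearMap.toMatrix_mul]
    rw [h2, h1, map_zero]
  have hN' : IsNilpotent (-N) := hN.neg
  have hu := Matrix.isUnit_charpolyRev_of_isNilpotent hN'
  obtain ⟨r, -, hr⟩ := Polynomial.isUnit_iff.1 hu
  have h0 : Polynomial.eval 0 (-N).charpolyRev = 1 := Matrix.eval_charpolyRev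
  have h1 : Polynomial.eval 1 (-N).charpolyRev = 1 := by
    rw [← hr] at h0 ⊢
    simpa using h0
  have h2 : Polynomial.eval 1 (-N).charpolyRev = (1 + N).det := by
    show (Polynomial.evalRingHom 1) (-N).charpolyRev = _
    rw [Matrix.charpolyRev, RingHom.map_det]
    congr 1
    ext i j
    simp [Matrix.sub_apply, Matrix.one_apply, apply_ite]
  have h3 : mdet (1 + ν) = (1 + N).det := by
    unfold mdet
    rw [← LinearMap.det_toMatrix B]
    congr 1
    have : LinearMap.mulLeft ℝ (1 + ν) = 1 + LinearMap.mulLeft ℝ ν := by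
      ext z
      simp [add_mul]
    rw [this, map_add, LinearMap.toMatrix_one]
  rw [h3, ← h2, h1]

theorem exp_of_sq_zero {ν : R} (hν : ν ^ 2 = 0) : exp ν = 1 + ν := by
  letI : NormedAlgebra ℚ R := NormedAlgebra.restrictScalars ℚ ℝ R
  haveI : CompleteSpace R := FiniteDimensional.complete ℝ R
  have h1 := exp_series_hasSum_exp' (𝕂 := ℝ) ν
  have h2 : HasSum (fun n : ℕ => ((n.factorial : ℝ)⁻¹) • ν ^ n)
      (∑ n ∈ Finset.range 2, ((n.factorial : ℝ)⁻¹) • ν ^ n) := by
    apply hasSum_sum_of_ne_finset_zero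
    intro n hn
    rw [Finset.mem_range, not_lt] at hn
    obtain ⟨k, rfl⟩ := Nat.exists_eq_add_of_le hn
    rw [pow_add, hν, zero_mul, smul_zero]
  rw [h1.unique h2]
  simp [Finset.sum_range_succ]

theorem logDet_of_sq_zero {ν : R} (hν : ν ^ 2 = 0) : logDet R ν = 0 := by
  rw [logDet_apply, exp_of_sq_zero hν, mdet_one_add_nilpotent ⟨2, hν⟩, Real.log_one]

/-- limit points of the orbit along a direction -/
theorem MaxRank.exists_seq (h : MaxRank L lam) {x : R} (hx : logDet R x = 0) :
    ∃ (τ : ℕ → ℝ) (β : ℕ → R), Tendsto τ atTop atTop ∧ Tendsto β atTop (𝓝 0) ∧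
      ∀ n, τ n • x + β n ∈ Submodule.span ℤ (Set.range lam) := by
  have h1 : ∀ n : ℕ, ∃ τ : ℝ, (n : ℝ) ≤ τ ∧ ∃ β : R, ‖β‖ < 1 / ((n : ℝ) + 1) ∧
      τ • x + β ∈ Submodule.span ℤ (Set.range lam) := fun n =>
    h.recurrence hx n (by positivity)
  choose τ hτ β hβ hmem using h1
  refine ⟨τ, β, ?_, ?_, hmem⟩
  · exact tendsto_atTop_mono hτ tendsto_natCast_atTop_atTop
  · rw [tendsto_zero_iff_norm_tendsto_zero]
    refine squeeze_zero (fun n => norm_nonneg _) (fun n => (hβ n).le) ?_
    exact tendsto_one_div_add_atTop_nhds_zero_nat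

theorem MaxRank.sq_zero_mem (h : MaxRank L lam) {C : PointedCone ℝ R}
    (hcl : IsClosed (C : Set R)) (h1 : (1 : R) ∈ C) (hC : ∀ i, lam i ∈ coneLat C) {ν : R}
    (hν : ν ^ 2 = 0) : ν ∈ C := by
  obtain ⟨τ, β, hτ, hβ, hmem⟩ := h.exists_seq (logDet_of_sq_zero hν)
  have h2 : ∀ᶠ n in atTop, (τ n)⁻¹ • (exp (β n)) + exp (β n) * ν ∈ (C : Set R) := by
    filter_upwards [hτ.eventually_gt_atTop 0] with n hn
    have h3 := coneLat_span hC (hmem n) h1
    rw [mul_one, ex_add, exp_of_sq_zero (ν := τ n • ν) (by rw [smul_pow, hν, smul_zero])] at h3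
    have h4 := C.smul_mem (r := (τ n)⁻¹) (by positivity) h3
    have h5 : (τ n)⁻¹ • ((1 + τ n • ν) * exp (β n)) =
        (τ n)⁻¹ • (exp (β n)) + exp (β n) * ν := by
      rw [add_mul, one_mul, smul_add, smul_mul_assoc, smul_smul, inv_mul_cancel₀ hn.ne', one_smul,
        mul_comm ν]
    rw [h5] at h4
    exact h4
  have h3 : Tendsto (fun n => (τ n)⁻¹ • (exp (β n)) + exp (β n) * ν) atTop (𝓝 ν) := by
    have h4 : Tendsto (fun n => exp (β n)) atTop (𝓝 1) := by
      have := (ex_cont (R := R)).continuousAt (x := (0 : R))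
      rw [ContinuousAt, exp_zero] at this
      exact this.comp hβ
    have h5 : Tendsto (fun n => (τ n)⁻¹) atTop (𝓝 0) := hτ.inv_tendsto_atTop
    have h6 := (h5.smul h4).add (h4.mul_const ν)
    simpa using h6
  exact hcl.mem_of_tendsto h3 h2

theorem MaxRank.sq_zero (h : MaxRank L lam) {C : PointedCone ℝ R}
    (hcl : IsClosed (C : Set R)) (hsal : ∀ x ∈ C, -x ∈ C → x = 0) (h1 : (1 : R) ∈ C)
    (hC : ∀ i, lam i ∈ coneLat C) {ν : R} (hν : ν ^ 2 = 0) : ν = 0 :=
  hsal ν (h.sq_zero_mem hcl h1 hC hν) (h.sq_zero_mem hcl h1 hC (by rw [neg_sq, hν]))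

end core

end Pool.Agent.Lib.Pad47bb
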