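import Pool.Agent.Lib.Pad47bb.Exist

/-!
Rational polyhedral neighbourhoods and covers of compact sets inside open cones.
-/

open Set Topology

namespace Pool.Agent.Lib.Pad47bb

variable {V : Type*} [NormedAddCommGroup V] [NormedSpace ℝ V]

theorem interior_add {C : PointedCone ℝ V} {x y : V} (hx : x ∈ interior (C : Set V))
    (hy : y ∈ C) : x + y ∈ interior (C : Set V) := by
  rw [mem_interior] at hx ⊢
  obtain ⟨t, ht, hto, hxt⟩ := hx
  refine ⟨(fun z => z + y) '' t, ?_, ?_, ⟨x, hxt, rfl⟩⟩
  · rintro _ ⟨z, hz, rfl⟩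
    exact C.add_mem (ht hz) hy
  · exact (Homeomorph.addRight y).isOpenMap t hto

theorem interior_smul' {C : PointedCone ℝ V} {x : V} (hx : x ∈ interior (C : Set V))
    {c : ℝ} (hc : 0 < c) : c • x ∈ interior (C : Set V) := by
  rw [mem_interior] at hx ⊢
  obtain ⟨t, ht, hto, hxt⟩ := hx
  refine ⟨(fun z => c • z) '' t, ?_, ?_, ⟨x, hxt, rfl⟩⟩
  · rintro _ ⟨z, hz, rfl⟩
    exact C.smul_mem hc.le (ht hz)
  · exact (Homeomorph.smulOfNeZero c hc.ne').isOpenMap t hto

/-- the interior of a cone, together with the origin -/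
def intCone (C : PointedCone ℝ V) : PointedCone ℝ V where
  carrier := {x | x = 0 ∨ x ∈ interior (C : Set V)}
  add_mem' := by
    rintro x y (rfl | hx) (rfl | hy)
    · exact Or.inl (by simp)
    · exact Or.inr (by simpa using hy)
    · exact Or.inr (by simpa using hx)
    · exact Or.inr (interior_add hx (interior_subset hy))
  zero_mem' := Or.inl rfl
  smul_mem' := by
    rintro ⟨c, hc⟩ x (rfl | hx)
    · exact Or.inl (by simp)
    · rcases hc.eq_or_lt with h | h
      · left
        show c • x = 0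
        rw [← h, zero_smul]
      · right
        exact interior_smul' hx h

theorem mem_intCone {C : PointedCone ℝ V} {x : V} :
    x ∈ intCone C ↔ x = 0 ∨ x ∈ interior (C : Set V) := Iff.rfl

theorem intCone_le (C : PointedCone ℝ V) : intCone C ≤ C := by
  rintro x (rfl | hx)
  · exact zero_mem C
  · exact interior_subset hx

variable [FiniteDimensional ℝ V] (L : Submodule ℤ V) [DiscreteTopology L] [IsZLattice ℝ L]

theorem exists_ratPoly_nhds {U : Set V} (hU : IsOpen U) {q : V} (hq : q ∈ U) :
    ∃ s : Finset V, (s : Set V) ⊆ (L : Set V) ∧ (∀ v ∈ s, ∃ c : ℝ, 0 < c ∧ c • v ∈ U) ∧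
      q ∈ interior (PointedCone.hull ℝ (s : Set V) : Set V) := by
  classical
  obtain ⟨r, hr, hball⟩ := Metric.isOpen_iff.1 hU q hq
  let b := (Module.Free.chooseBasis ℤ L).ofZLatticeBasis ℝ L
  have hbL : ∀ i, b i ∈ L := fun i => by simp [b]
  let M : ℝ := ∑ i, ‖b i‖
  have hM : 0 ≤ M := Finset.sum_nonneg fun i _ => norm_nonneg _
  obtain ⟨N, hN⟩ := exists_nat_gt (2 * M / r)
  have hN0 : (0 : ℝ) < N + 1 := by positivity
  have hN1 : 2 * M / (N + 1) < r := by
    rw [div_lt_iff₀ hN0]
    rw [div_lt_iff₀ hr] at hN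
    nlinarith
  let t : _ → ℝ := fun i => b.repr q i
  let k : _ → ℤ := fun i => ⌊((N : ℝ) + 1) * t i⌋
  let T : _ → Finset ℤ := fun i => {k i - 1, k i + 2}
  let ev : (_ → ℤ) → V := fun σ => ∑ i, (σ i : ℝ) • b i
  let s : Finset V := (Fintype.piFinset T).image ev
  have hk : ∀ i, (k i : ℝ) ≤ (N + 1) * t i ∧ (N + 1) * t i < k i + 1 := fun i =>
    ⟨Int.floor_le _, Int.lt_floor_add_one _⟩
  have hqsum : ∑ i, t i • b i = q := b.sum_repr q
  refine ⟨s, ?_, ?_, ?_⟩
  · intro v hv
    simp only [s, Finset.coe_image, mem_image] at hv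
    obtain ⟨σ, -, rfl⟩ := hv
    refine Submodule.sum_mem _ fun i _ => ?_
    rw [Int.cast_smul_eq_zsmul]
    exact Submodule.smul_mem _ _ (hbL i)
  · intro v hv
    simp only [s, Finset.mem_image, Fintype.mem_piFinset] at hv
    obtain ⟨σ, hσ, rfl⟩ := hv
    refine ⟨((N : ℝ) + 1)⁻¹, inv_pos.2 hN0, hball ?_⟩
    rw [Metric.mem_ball, dist_eq_norm]
    have h1 : ((N : ℝ) + 1)⁻¹ • ev σ - q = ((N : ℝ) + 1)⁻¹ •
        ∑ i, ((σ i : ℝ) - (N + 1) * t i) • b i := by
      simp only [sub_smul, Finset.sum_sub_distrib, smul_sub]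
      congr 1
      rw [← hqsum, Finset.smul_sum]
      refine Finset.sum_congr rfl fun i _ => ?_
      rw [smul_smul, ← mul_assoc, inv_mul_cancel₀ hN0.ne', one_mul]
    have h2 : ∀ i, |(σ i : ℝ) - (N + 1) * t i| ≤ 2 := by
      intro i
      have h3 := hσ i
      simp only [T, Finset.mem_insert, Finset.mem_singleton] at h3
      have h4 := hk i
      rw [abs_le]
      rcases h3 with h | h
      · rw [h]; push_cast; constructor <;> linarith
      · rw [h]; push_cast; constructor <;> linarith
    rw [h1, norm_smul, Real.norm_eq_abs, abs_of_pos (inv_pos.2 hN0)]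
    calc ((N : ℝ) + 1)⁻¹ * ‖∑ i, ((σ i : ℝ) - (N + 1) * t i) • b i‖
        ≤ ((N : ℝ) + 1)⁻¹ * (2 * M) := by
          refine mul_le_mul_of_nonneg_left ?_ (inv_nonneg.2 hN0.le)
          refine (norm_sum_le _ _).trans ?_
          show _ ≤ 2 * ∑ i, ‖b i‖
          rw [Finset.mul_sum]
          refine Finset.sum_le_sum fun i _ => ?_
          rw [norm_smul, Real.norm_eq_abs]
          exact mul_le_mul_of_nonneg_right (h2 i) (norm_nonneg _)
      _ = 2 * M / (N + 1) := by rw [div_eq_inv_mul]
      _ < r := hN1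
  · rw [mem_interior]
    refine ⟨{x | ∀ i, |b.repr x i - t i| < ((N : ℝ) + 1)⁻¹}, ?_, ?_, ?_⟩
    · intro x hx
      have hx' : ∀ i, ((k i : ℝ) - 1) ≤ (N + 1) * b.repr x i ∧
          (N + 1) * b.repr x i ≤ k i + 2 := by
        intro i
        have h1 := hx i
        rw [abs_lt] at h1
        have h2 := hk i
        have h3 : ((N : ℝ) + 1) * ((N : ℝ) + 1)⁻¹ = 1 := mul_inv_cancel₀ hN0.ne'
        constructor
        · have : ((N : ℝ) + 1) * (t i - ((N : ℝ) + 1)⁻¹) ≤ (N + 1) * b.repr x i :=
            mul_le_mul_of_nonneg_left (by linarith) hN0.le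
          rw [mul_sub, h3] at this
          linarith
        · have : ((N : ℝ) + 1) * b.repr x i ≤ (N + 1) * (t i + ((N : ℝ) + 1)⁻¹) :=
            mul_le_mul_of_nonneg_left (by linarith) hN0.le
          rw [mul_add, h3] at this
          linarith
      have h1 : (fun i => ((N : ℝ) + 1) * b.repr x i) ∈
          convexHull ℝ (Set.univ.pi fun i => ({(k i : ℝ) - 1, (k i : ℝ) + 2} : Set ℝ)) := by
        rw [convexHull_pi]
        intro i _
        show ((N : ℝ) + 1) * b.repr x i ∈ convexHull ℝ ({(k i : ℝ) - 1, (k i : ℝ) + 2} : Set ℝ)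
        rw [convexHull_pair, segment_eq_Icc (by linarith)]
        exact hx' i
      let F : (_ → ℝ) →ₗ[ℝ] V := b.equivFun.symm.toLinearMap
      have h2 : ((N : ℝ) + 1) • x = F (fun i => ((N : ℝ) + 1) * b.repr x i) := by
        show _ = b.equivFun.symm _
        rw [Module.Basis.equivFun_symm_apply]
        conv_lhs => rw [← b.sum_repr x, Finset.smul_sum]
        refine Finset.sum_congr rfl fun i _ => ?_
        rw [smul_smul]
      have h3 : ((N : ℝ) + 1) • x ∈ convexHull ℝ (s : Set V) := by
        rw [h2]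
        have h4 := mem_image_of_mem F h1
        rw [F.image_convexHull] at h4
        refine convexHull_mono ?_ h4
        rintro _ ⟨σ, hσ, rfl⟩
        rw [Set.mem_univ_pi] at hσ
        have h5 : ∀ i, ∃ n ∈ T i, σ i = (n : ℝ) := by
          intro i
          rcases hσ i with h | h
          · exact ⟨k i - 1, by simp [T], by rw [h]; push_cast; ring⟩
          · rw [mem_singleton_iff] at h
            exact ⟨k i + 2, by simp [T], by rw [h]; push_cast; ring⟩
        choose n hnT hn using h5
        simp only [s, Finset.coe_image, mem_image, Finset.mem_coe, Fintype.mem_piFinset]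
        refine ⟨n, hnT, ?_⟩
        show _ = b.equivFun.symm σ
        rw [Module.Basis.equivFun_symm_apply]
        refine Finset.sum_congr rfl fun i _ => ?_
        rw [hn i]
      have h4 : ((N : ℝ) + 1) • x ∈ PointedCone.hull ℝ (s : Set V) := by
        have h5 : convexHull ℝ (s : Set V) ⊆ (PointedCone.hull ℝ (s : Set V) : Set V) :=
          convexHull_min Submodule.subset_span (PointedCone.convex _)
        exact h5 h3
      have h5 := (PointedCone.hull ℝ (s : Set V)).smul_mem (r := ((N : ℝ) + 1)⁻¹)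
        (inv_nonneg.2 hN0.le) h4
      rw [smul_smul, inv_mul_cancel₀ hN0.ne', one_smul] at h5
      exact h5
    · have h1 : {x | ∀ i, |b.repr x i - t i| < ((N : ℝ) + 1)⁻¹} =
          ⋂ i, {x | |b.repr x i - t i| < ((N : ℝ) + 1)⁻¹} := by
        ext x
        simp
      rw [h1]
      refine isOpen_iInter_of_finite fun i => ?_
      refine isOpen_lt ?_ continuous_const
      have h2 : Continuous fun x => b.repr x i :=
        (b.coord i).continuous_of_finiteDimensional
      exact (h2.sub continuous_const).abs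
    · intro i
      show |b.repr q i - t i| < _
      rw [show b.repr q i = t i from rfl, sub_self, abs_zero]
      exact inv_pos.2 hN0

/-- A compact subset of the interior of a cone is contained in a rational polyhedral cone which,
apart from the origin, lies in the interior. -/
theorem exists_ratPoly_cover {C : PointedCone ℝ V} {Q : Set V} (hQ : IsCompact Q)
    (hQC : Q ⊆ interior (C : Set V)) :
    ∃ P : PointedCone ℝ V, IsRatPoly L P ∧ P ≤ intCone C ∧ Q ⊆ (P : Set V) := by
  classical
  have h1 : ∀ q ∈ Q, ∃ s : Finset V, (s : Set V) ⊆ (L : Set V) ∧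
      (∀ v ∈ s, v ∈ interior (C : Set V)) ∧
      q ∈ interior (PointedCone.hull ℝ (s : Set V) : Set V) := by
    intro q hq
    obtain ⟨s, hs1, hs2, hs3⟩ := exists_ratPoly_nhds L isOpen_interior (hQC hq)
    refine ⟨s, hs1, fun v hv => ?_, hs3⟩
    obtain ⟨c, hc, hcv⟩ := hs2 v hv
    have := interior_smul' hcv (inv_pos.2 hc)
    rwa [smul_smul, inv_mul_cancel₀ hc.ne', one_smul] at this
  choose! s hs1 hs2 hs3 using h1
  obtain ⟨t, htQ, hcov⟩ := hQ.elim_nhds_subcover
    (fun q => interior (PointedCone.hull ℝ (s q : Set V) : Set V))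
    (fun q hq => isOpen_interior.mem_nhds (hs3 q hq))
  refine ⟨PointedCone.hull ℝ ((t.biUnion s : Finset V) : Set V), ⟨t.biUnion s, ?_, rfl⟩, ?_, ?_⟩
  · intro v hv
    simp only [Finset.coe_biUnion, mem_iUnion, Finset.mem_coe] at hv
    obtain ⟨q, hq, hv⟩ := hv
    exact hs1 q (htQ q hq) hv
  · refine Submodule.span_le.2 ?_
    intro v hv
    simp only [Finset.coe_biUnion, mem_iUnion, Finset.mem_coe] at hv
    obtain ⟨q, hq, hv⟩ := hv
    exact Or.inr (hs2 q (htQ q hq) v hv)
  · intro q hq
    have := hcov hq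
    simp only [mem_iUnion] at this
    obtain ⟨p, hp, hqp⟩ := this
    have h2 : PointedCone.hull ℝ (s p : Set V) ≤
        PointedCone.hull ℝ ((t.biUnion s : Finset V) : Set V) := by
      refine Submodule.span_mono ?_
      intro v hv
      simp only [Finset.coe_biUnion, mem_iUnion, Finset.mem_coe]
      exact ⟨p, hp, hv⟩
    exact h2 (interior_subset hqp)

theorem exists_lattice_interior {C : PointedCone ℝ V} (hC : (interior (C : Set V)).Nonempty)
    [Nontrivial V] : ∃ x ∈ L, x ≠ 0 ∧ x ∈ interior (C : Set V) := by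
  obtain ⟨q, hq⟩ := hC
  obtain ⟨s, hs1, hs2, hs3⟩ := exists_ratPoly_nhds L isOpen_interior hq
  have hne : ∃ v ∈ s, v ≠ 0 := by
    by_contra h
    push Not at h
    have h1 : (PointedCone.hull ℝ (s : Set V) : Set V) ⊆ {0} := by
      have : PointedCone.hull ℝ (s : Set V) ≤ ⊥ := by
        refine Submodule.span_le.2 ?_
        intro v hv
        exact h v hv
      intro x hx
      exact this hx
    have h2 : interior (PointedCone.hull ℝ (s : Set V) : Set V) ⊆ interior {0} :=
      interior_mono h1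
    have h3 := h2 hs3
    rw [interior_singleton] at h3
    exact h3
  obtain ⟨v, hv, hv0⟩ := hne
  refine ⟨v, hs1 hv, hv0, ?_⟩
  obtain ⟨c, hc, hcv⟩ := hs2 v hv
  have := interior_smul' hcv (inv_pos.2 hc)
  rwa [smul_smul, inv_mul_cancel₀ hc.ne', one_smul] at this

end Pool.Agent.Lib.Pad47bb
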