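import Pool.Agent.Lib.Pad47bb.Orthant
import Pool.Agent.Lib.Pad47bb.Cyclic
import Pool.Agent.Lib.Pad47bb.RatNbhd

/-!
Free abelian groups of linear automorphisms of maximal rank: reduction to commutative algebras.
-/

open Set Topology NormedSpace Filter

namespace Pool.Agent.Lib.Pad47bb

universe u

variable {V : Type u} [NormedAddCommGroup V] [NormedSpace ℝ V] [FiniteDimensional ℝ V]
  {m : ℕ} (φ : Multiplicative (Fin m → ℤ) →* (V ≃ₗ[ℝ] V))

/-- the image of a vector of exponents -/
def act (k : Fin m → ℤ) : V ≃ₗ[ℝ] V := φ (Multiplicative.ofAdd k)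

theorem act_add (k l : Fin m → ℤ) (v : V) : act φ (k + l) v = act φ k (act φ l v) := by
  show φ (Multiplicative.ofAdd (k + l)) v = _
  rw [ofAdd_add, map_mul]
  rfl

theorem act_zero (v : V) : act φ 0 v = v := by
  show φ (Multiplicative.ofAdd 0) v = _
  rw [ofAdd_zero, map_one]
  rfl

theorem act_neg (k : Fin m → ℤ) (v : V) : act φ (-k) v = (act φ k).symm v := by
  rw [LinearEquiv.eq_symm_apply, ← act_add, add_neg_cancel, act_zero]

theorem act_comm (k l : Fin m → ℤ) : act φ k * act φ l = act φ l * act φ k := by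
  ext v
  show act φ k (act φ l v) = act φ l (act φ k v)
  rw [← act_add, ← act_add, add_comm]

/-- induction on exponents -/
theorem exp_induction {P : (Fin m → ℤ) → Prop} (h0 : P 0) (hadd : ∀ k l, P k → P l → P (k + l))
    (hneg : ∀ k, P k → P (-k)) (hs : ∀ i, P (Pi.single i 1)) (k : Fin m → ℤ) : P k := by
  let T : AddSubgroup (Fin m → ℤ) :=
    { carrier := {k | P k}
      zero_mem' := h0
      add_mem' := fun {a b} ha hb => hadd a b ha hb
      neg_mem' := fun {a} ha => hneg a ha }
  have h1 : k = ∑ i, k i • Pi.single i (1 : ℤ) := by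
    funext j
    rw [Finset.sum_apply]
    simp [Pi.single_apply]
  have h2 : k ∈ T := by
    rw [h1]
    exact sum_mem fun i _ => zsmul_mem (hs i) _
  exact h2

/-- an algebra model of a cyclic module over the group -/
structure Model (x : V) (R : Type u) [NormedCommRing R] [NormedAlgebra ℝ R]
    [FiniteDimensional ℝ R] where
  /-- evaluation -/
  ev : R ≃L[ℝ] V
  /-- logarithms -/
  lam : Fin m → R
  ev_one : ev 1 = x
  ev_exp : ∀ (k : Fin m → ℤ) (r : R),
    ev (exp (∑ i, k i • lam i) * r) = act φ (2 • k) (ev r)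

theorem exists_model (x : V)
    (hcyc : ∀ W : Submodule ℝ V, x ∈ W → (∀ k, ∀ w ∈ W, act φ k w ∈ W) → W = ⊤) :
    ∃ (R : Type u) (_ : NormedCommRing R) (_ : NormedAlgebra ℝ R) (_ : FiniteDimensional ℝ R),
      Nonempty (Model φ x R) := by
  obtain ⟨R, i1, i2, i3, ev, a, a', hev1, hev, haa⟩ :=
    exists_alg (fun i : Fin m => act φ (Pi.single i 1)) (fun i j => act_comm φ _ _) x (by
      intro W hxW hW
      refine hcyc W hxW ?_
      suffices hall : ∀ k, (∀ w ∈ W, act φ k w ∈ W) ∧ ∀ w ∈ W, act φ (-k) w ∈ W from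
        fun k => (hall k).1
      refine exp_induction ?_ ?_ ?_ ?_
      · refine ⟨fun w hw => ?_, fun w hw => ?_⟩
        · rw [act_zero]; exact hw
        · rw [neg_zero, act_zero]; exact hw
      · rintro k l ⟨hk, hk'⟩ ⟨hl, hl'⟩
        refine ⟨fun w hw => ?_, fun w hw => ?_⟩
        · rw [act_add]; exact hk _ (hl _ hw)
        · rw [neg_add, act_add]; exact hk' _ (hl' _ hw)
      · rintro k ⟨hk, hk'⟩
        exact ⟨hk', by rw [neg_neg]; exact hk⟩
      · intro i
        refine ⟨fun w hw => (hW i w hw).1, fun w hw => ?_⟩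
        rw [act_neg]
        exact (hW i w hw).2)
  refine ⟨R, i1, i2, i3, ?_⟩
  have hlog : ∀ i, ∃ s : R, exp s = a i ^ 2 := fun i => exists_log_sq (a i) (a' i) (haa i)
  choose lam hlam using hlog
  have hev' : ∀ i r, ev (a' i * r) = act φ (-Pi.single i 1) (ev r) := by
    intro i r
    rw [act_neg, LinearEquiv.eq_symm_apply, ← hev, ← mul_assoc, haa, one_mul]
  have hneg : ∀ i, exp (-lam i) = a' i ^ 2 := by
    intro i
    have h1 := ex_mul_neg (lam i)
    have h2 : a i ^ 2 * a' i ^ 2 = 1 := by rw [← mul_pow, haa, one_pow]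
    rw [hlam] at h1
    calc exp (-lam i) = (a i ^ 2 * a' i ^ 2) * exp (-lam i) := by rw [h2, one_mul]
      _ = a' i ^ 2 * (a i ^ 2 * exp (-lam i)) := by ring
      _ = a' i ^ 2 := by rw [h1, mul_one]
  refine ⟨⟨ev.toContinuousLinearEquiv, lam, hev1, ?_⟩⟩
  have key : ∀ k : Fin m → ℤ, ∀ r : R, ev (exp (∑ i, k i • lam i) * r) =
      act φ (2 • k) (ev r) := by
    refine exp_induction ?_ ?_ ?_ ?_
    · intro r
      have : ∑ i, (0 : Fin m → ℤ) i • lam i = 0 := by simp
      rw [this, exp_zero, one_mul, smul_zero, act_zero]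
    · intro k l hk hl r
      have : ∑ i, (k + l) i • lam i = ∑ i, k i • lam i + ∑ i, l i • lam i := by
        rw [← Finset.sum_add_distrib]
        exact Finset.sum_congr rfl fun i _ => by rw [Pi.add_apply, add_smul]
      rw [this, ex_add, mul_assoc, hk, hl, ← act_add, smul_add]
    · intro k hk r
      have : ∑ i, (-k) i • lam i = -∑ i, k i • lam i := by
        rw [← Finset.sum_neg_distrib]
        exact Finset.sum_congr rfl fun i _ => by rw [Pi.neg_apply, neg_smul]
      rw [this, smul_neg, act_neg, LinearEquiv.eq_symm_apply, ← hk, ← mul_assoc, ex_mul_neg,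
        one_mul]
    · intro i r
      have h1 : ∑ j, (Pi.single i (1 : ℤ) : Fin m → ℤ) j • lam j = lam i := by
        rw [Finset.sum_eq_single i]
        · simp
        · intro j _ hj
          simp [Pi.single_eq_of_ne hj]
        · simp
      rw [h1, hlam, pow_two, mul_assoc, hev, hev, two_smul, act_add]
  exact key

namespace Model

variable {φ} {x : V} {R : Type u} [NormedCommRing R] [NormedAlgebra ℝ R] [FiniteDimensional ℝ R]
  (M : Model φ x R)

include M

theorem sum_single (i : Fin m) : ∑ j, (Pi.single i (1 : ℤ) : Fin m → ℤ) j • M.lam j = M.lam i := by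
  rw [Finset.sum_eq_single i]
  · simp
  · intro j _ hj
    simp [Pi.single_eq_of_ne hj]
  · simp

theorem sum_neg_single (i : Fin m) :
    ∑ j, (-Pi.single i (1 : ℤ) : Fin m → ℤ) j • M.lam j = -M.lam i := by
  rw [← M.sum_single i, ← Finset.sum_neg_distrib]
  exact Finset.sum_congr rfl fun i _ => by rw [Pi.neg_apply, neg_smul]

theorem mul_indep (hφ : Function.Injective φ) (k : Fin m → ℤ)
    (hk : exp (∑ i, k i • M.lam i) = 1) : k = 0 := by
  have h1 : φ (Multiplicative.ofAdd (2 • k)) = 1 := by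
    ext v
    obtain ⟨r, rfl⟩ := M.ev.surjective v
    have := M.ev_exp k r
    rw [hk, one_mul] at this
    exact this.symm
  have h2 : Multiplicative.ofAdd (2 • k) = 1 := hφ (by rw [h1, map_one])
  have h3 : 2 • k = 0 := by simpa using h2
  funext i
  have h4 := congrFun h3 i
  rw [Pi.smul_apply, Pi.zero_apply] at h4
  simpa using h4

theorem mem_logLat (L : Submodule ℤ V) (hL : ∀ k, ∀ v ∈ L, act φ k v ∈ L) (i : Fin m) :
    M.lam i ∈ logLat (ZLattice.comap ℝ L M.ev.toLinearMap) := by
  refine ⟨fun r hr => ?_, fun r hr => ?_⟩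
  · have h1 := M.ev_exp (Pi.single i 1) r
    rw [M.sum_single] at h1
    show M.ev (exp (M.lam i) * r) ∈ L
    rw [h1]
    exact hL _ _ hr
  · have h1 := M.ev_exp (-Pi.single i 1) r
    rw [M.sum_neg_single] at h1
    show M.ev (exp (-M.lam i) * r) ∈ L
    rw [h1]
    exact hL _ _ hr

/-- the pullback of a cone -/
noncomputable def cone (C : PointedCone ℝ V) : PointedCone ℝ R := PointedCone.comap M.ev.toLinearMap C

theorem mem_cone {C : PointedCone ℝ V} {r : R} : r ∈ M.cone C ↔ M.ev r ∈ C := Iff.rfl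

theorem mem_coneLat {C : PointedCone ℝ V} (hC : ∀ k, ∀ v ∈ C, act φ k v ∈ C) (i : Fin m) :
    M.lam i ∈ coneLat (M.cone C) := by
  refine ⟨fun r hr => ?_, fun r hr => ?_⟩
  · have h1 := M.ev_exp (Pi.single i 1) r
    rw [M.sum_single] at h1
    show M.ev (exp (M.lam i) * r) ∈ C
    rw [h1]
    exact hC _ _ hr
  · have h1 := M.ev_exp (-Pi.single i 1) r
    rw [M.sum_neg_single] at h1
    show M.ev (exp (-M.lam i) * r) ∈ C
    rw [h1]
    exact hC _ _ hr

end Model

/-- rank bound in the cyclic case -/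
theorem rank_lt_of_cyclic [Nontrivial V] (hφ : Function.Injective φ)
    (L : Submodule ℤ V) [DiscreteTopology L] [IsZLattice ℝ L]
    (hL : ∀ k, ∀ v ∈ L, act φ k v ∈ L) (x : V)
    (hcyc : ∀ W : Submodule ℝ V, x ∈ W → (∀ k, ∀ w ∈ W, act φ k w ∈ W) → W = ⊤) :
    m < Module.finrank ℝ V := by
  obtain ⟨R, i1, i2, i3, ⟨M⟩⟩ := exists_model φ x hcyc
  haveI : Nontrivial R := M.ev.toEquiv.nontrivial
  have hv : LinearIndependent ℤ M.lam := by
    rw [Fintype.linearIndependent_iff]
    intro k hk i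
    have := M.mul_indep hφ k (by rw [hk, exp_zero])
    rw [this]
    rfl
  have h1 := card_lt_finrank (ZLattice.comap ℝ L M.ev.toLinearMap) M.lam hv
    (M.mem_logLat L hL)
  rwa [Fintype.card_fin, M.ev.toLinearEquiv.finrank_eq] at h1

/-- the stabilizer of an interior point is trivial -/
theorem stab_trivial (hφ : Function.Injective φ)
    (L : Submodule ℤ V) [DiscreteTopology L] [IsZLattice ℝ L] (K : PointedCone ℝ V)
    (hs : ∀ x ∈ closure (K : Set V), -x ∈ closure (K : Set V) → x = 0)
    (hL : ∀ k, ∀ v ∈ L, act φ k v ∈ L) (hK : ∀ k, ∀ v ∈ K, act φ k v ∈ K)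
    {x : V} (hx : x ∈ interior (K : Set V)) {k : Fin m → ℤ} (hk : act φ k x = x) : k = 0 := by
  by_contra hne
  obtain ⟨f, hf⟩ := exists_pos K hs
  have hfin := finite_le L K (Set.range (act φ)) (by
    rintro _ ⟨k, rfl⟩ x hx
    exact hL k x hx) (by
    rintro _ ⟨k, rfl⟩ x hx
    exact hK k x hx) f hf x hx (f x)
  have h1 : ∀ n : ℕ, act φ (n • k) x = x := by
    intro n
    induction n with
    | zero => rw [zero_smul, act_zero]
    | succ n ih => rw [succ_nsmul, act_add, hk, ih]
  have h2 : Function.Injective fun n : ℕ => act φ (n • k) := by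
    intro n n' h
    have h3 : Multiplicative.ofAdd (n • k) = Multiplicative.ofAdd (n' • k) := hφ h
    have h4 : n • k = n' • k := Multiplicative.ofAdd.injective h3
    obtain ⟨i, hi⟩ := Function.ne_iff.1 hne
    have h5 := congrFun h4 i
    simp only [Pi.smul_apply, nsmul_eq_mul] at h5
    have h6 : (n : ℤ) = n' := mul_right_cancel₀ (by simpa using hi) h5
    exact_mod_cast h6
  have h3 : (Set.range fun n : ℕ => act φ (n • k)).Finite := by
    refine hfin.subset ?_
    rintro _ ⟨n, rfl⟩
    exact ⟨⟨n • k, rfl⟩, by rw [h1 n]⟩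
  exact (Set.infinite_range_of_injective h2) h3

end Pool.Agent.Lib.Pad47bb
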