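import Pool.Agent.Lib.Pad47bb.Split

/-!
Invariant closed salient cones are orthants; lattice points on them are interior; the positive
orthant modulo the group and scaling is compact.
-/

open NormedSpace Filter Topology

namespace Pool.Agent.Lib.Pad47bb

section orthant

variable {R : Type*} [NormedCommRing R] [NormedAlgebra ℝ R] [FiniteDimensional ℝ R]
  {J : Type*} [Fintype J] (e : R ≃ₐ[ℝ] (J → ℝ))

theorem split_exp (x : R) (j : J) : e (exp x) j = Real.exp (e x j) := by
  letI : NormedAlgebra ℚ R := NormedAlgebra.restrictScalars ℚ ℝ R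
  haveI : CompleteSpace R := FiniteDimensional.complete ℝ R
  let φ : R →ₐ[ℝ] ℝ := (Pi.evalAlgHom ℝ (fun _ : J => ℝ) j).comp (e : R →ₐ[ℝ] (J → ℝ))
  have hc : Continuous φ := φ.toLinearMap.continuous_of_finiteDimensional
  rw [Real.exp_eq_exp_ℝ]
  exact map_exp φ hc x

theorem split_cont : Continuous (e : R → J → ℝ) :=
  e.toLinearEquiv.toLinearMap.continuous_of_finiteDimensional

theorem split_symm_cont : Continuous (e.symm : (J → ℝ) → R) :=
  e.symm.toLinearEquiv.toLinearMap.continuous_of_finiteDimensional

include e in
theorem split_card : Fintype.card J = Module.finrank ℝ R := by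
  rw [e.toLinearEquiv.finrank_eq, Module.finrank_fintype_fun_eq_card]

theorem split_mdet (x : R) : mdet x = ∏ j, e x j := by
  classical
  let b : Module.Basis J ℝ R := (Pi.basisFun ℝ J).map e.symm.toLinearEquiv
  have h1 : LinearMap.toMatrix b b (LinearMap.mulLeft ℝ x) = Matrix.diagonal (e x) := by
    ext i j
    rw [LinearMap.toMatrix_apply]
    have h2 : ∀ y : R, b.repr y i = e y i := by
      intro y
      simp [b]
    have h3 : e (b j) = Pi.single j 1 := by
      simp [b]
    rw [h2, LinearMap.mulLeft_apply, map_mul, h3, Pi.mul_apply, Matrix.diagonal_apply]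
    by_cases hij : i = j
    · subst hij
      simp
    · rw [Pi.single_eq_of_ne hij, if_neg hij, mul_zero]
  unfold mdet
  rw [← LinearMap.det_toMatrix b, h1, Matrix.det_diagonal]

theorem split_logDet (x : R) : logDet R x = ∑ j, e x j := by
  rw [logDet_apply, split_mdet e]
  simp only [split_exp]
  rw [← Real.exp_sum, Real.log_exp]

variable {L : Submodule ℤ R} [DiscreteTopology L] [IsZLattice ℝ L] {ι : Type*} [Fintype ι]
  {lam : ι → R}

/-- the coordinate projections preserve the cone -/
theorem MaxRank.coord_mem [DecidableEq J] (h : MaxRank L lam) {C : PointedCone ℝ R}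
    (hcl : IsClosed (C : Set R)) (hC : ∀ i, lam i ∈ coneLat C) {x : R} (hx : x ∈ C) (j : J) :
    e.symm (Pi.single j (e x j)) ∈ C := by
  by_cases hJ : ∀ i : J, i = j
  · have h1 : Pi.single j (e x j) = e x := by
      funext i
      rw [hJ i, Pi.single_eq_same]
    rw [h1, e.symm_apply_apply]
    exact hx
  · push Not at hJ
    obtain ⟨i₀, hi₀⟩ := hJ
    have hn : 2 ≤ Fintype.card J := by
      have : (1 : ℕ) < Fintype.card J := Fintype.one_lt_card_iff.2 ⟨i₀, j, hi₀⟩
      exact this
    let c : ℝ := ((Fintype.card J : ℝ) - 1)⁻¹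
    have hc1 : (0 : ℝ) < (Fintype.card J : ℝ) - 1 := by
      have : (2 : ℝ) ≤ Fintype.card J := by exact_mod_cast hn
      linarith
    have hc : 0 < c := inv_pos.2 hc1
    let w : J → ℝ := fun i => if i = j then 1 else -c
    let z : R := e.symm w
    have hz : e z = w := e.apply_symm_apply w
    have hz0 : logDet R z = 0 := by
      rw [split_logDet e, hz]
      have h1 : ∑ i, w i = ∑ i, ((if i = j then (1 + c) else 0) + -c) := by
        refine Finset.sum_congr rfl fun i _ => ?_
        by_cases hij : i = j
        · simp [w, hij]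
        · simp [w, hij]
      rw [h1, Finset.sum_add_distrib, Finset.sum_ite_eq' Finset.univ j, if_pos (Finset.mem_univ j),
        Finset.sum_const, Finset.card_univ, nsmul_eq_mul]
      have h2 : ((Fintype.card J : ℝ) - 1) * c = 1 := mul_inv_cancel₀ hc1.ne'
      linarith
    obtain ⟨τ, β, hτ, hβ, hmem⟩ := h.exists_seq hz0
    let y : ℕ → R := fun n => Real.exp (-τ n) • (exp (τ n • z + β n) * x)
    have hy : ∀ n, y n ∈ (C : Set R) := fun n =>
      C.smul_mem (r := Real.exp (-τ n)) (Real.exp_pos _).le (coneLat_span hC (hmem n) hx)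
    have hey : ∀ n i, e (y n) i = Real.exp (τ n * (w i - 1) + e (β n) i) * e x i := by
      intro n i
      simp only [y, map_smul, map_mul, Pi.smul_apply, Pi.mul_apply, smul_eq_mul, split_exp,
        map_add, Pi.add_apply, hz]
      rw [← mul_assoc, ← Real.exp_add]
      congr 2
      ring
    have hlim : Tendsto (fun n => e (y n)) atTop (𝓝 (Pi.single j (e x j))) := by
      rw [tendsto_pi_nhds]
      intro i
      have hβi : Tendsto (fun n => e (β n) i) atTop (𝓝 0) := by
        have h1 := ((continuous_apply i).comp (split_cont e)).continuousAt (x := (0 : R))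
        have h2 : Tendsto (fun n => e (β n) i) atTop (𝓝 (e 0 i)) := h1.tendsto.comp hβ
        simpa using h2
      simp only [hey]
      by_cases hij : i = j
      · subst hij
        rw [Pi.single_eq_same]
        have h1 : w i = 1 := by simp [w]
        simp only [h1, sub_self, mul_zero, zero_add]
        have h2 := (Real.continuous_exp.tendsto 0).comp hβi
        rw [Real.exp_zero] at h2
        have h3 := h2.mul_const (e x i)
        rw [one_mul] at h3
        exact h3
      · rw [Pi.single_eq_of_ne hij]
        have h1 : w i = -c := by simp [w, hij]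
        have h2 : Tendsto (fun n => τ n * (w i - 1) + e (β n) i) atTop atBot := by
          have h3 : w i - 1 < 0 := by rw [h1]; linarith
          have h4 : Tendsto (fun n => τ n * (w i - 1)) atTop atBot :=
            hτ.atTop_mul_const_of_neg h3
          exact h4.atBot_add hβi
        have h3 := Real.tendsto_exp_atBot.comp h2
        have h4 := h3.mul_const (e x i)
        rw [zero_mul] at h4
        exact h4
    have hlim2 : Tendsto y atTop (𝓝 (e.symm (Pi.single j (e x j)))) := by
      have h1 := ((split_symm_cont e).tendsto _).comp hlim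
      refine h1.congr fun n => ?_
      simp
    exact hcl.mem_of_tendsto hlim2 (Eventually.of_forall hy)

/-- an invariant closed salient cone containing `1` is the orthant -/
theorem MaxRank.cone_eq (h : MaxRank L lam) {C : PointedCone ℝ R}
    (hcl : IsClosed (C : Set R)) (hsal : ∀ x ∈ C, -x ∈ C → x = 0) (h1 : (1 : R) ∈ C)
    (hC : ∀ i, lam i ∈ coneLat C) (x : R) : x ∈ C ↔ ∀ j, 0 ≤ e x j := by
  classical
  have hone : ∀ j : J, e.symm (Pi.single j 1) ∈ C := by
    intro j
    have := h.coord_mem e hcl hC h1 j
    rwa [map_one, Pi.one_apply] at this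
  constructor
  · intro hx j
    by_contra hneg
    push Not at hneg
    have h2 := h.coord_mem e hcl hC hx j
    have h3 := C.smul_mem (r := (-(e x j))⁻¹) (inv_nonneg.2 (by linarith)) h2
    have h4 : (-(e x j))⁻¹ • e.symm (Pi.single j (e x j)) = -e.symm (Pi.single j 1) := by
      rw [← map_smul, ← map_neg, ← Pi.single_smul, ← Pi.single_neg, smul_eq_mul]
      congr 2
      rw [inv_neg, neg_mul, inv_mul_cancel₀ hneg.ne]
    rw [h4] at h3
    have h5 := hsal _ (hone j) h3
    have h6 : (Pi.single j (1 : ℝ) : J → ℝ) = 0 := by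
      have := congrArg e h5
      rwa [e.apply_symm_apply, map_zero] at this
    have h7 := congrFun h6 j
    rw [Pi.single_eq_same, Pi.zero_apply] at h7
    exact one_ne_zero h7
  · intro hx
    have h2 : x = ∑ j, (e x j) • e.symm (Pi.single j 1) := by
      apply e.injective
      rw [map_sum]
      simp only [map_smul, e.apply_symm_apply]
      funext i
      rw [Finset.sum_apply]
      simp [Pi.single_apply]
    rw [h2]
    exact sum_mem fun j _ => C.smul_mem (hx j) (hone j)

/-- nonzero lattice points of the closed orthant are interior -/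
theorem MaxRank.lattice_pos (h : MaxRank L lam) {y : R} (hyL : y ∈ L) (hy0 : y ≠ 0)
    (hy : ∀ j, 0 ≤ e y j) (j : J) : 0 < e y j := by
  classical
  by_contra hneg
  have hj0 : e y j = 0 := le_antisymm (not_lt.1 hneg) (hy j)
  let I : Finset J := Finset.univ.filter fun i => e y i ≠ 0
  have hI1 : j ∉ I := by simp [I, hj0]
  have hIne : I.Nonempty := by
    by_contra hI
    rw [Finset.not_nonempty_iff_eq_empty, Finset.filter_eq_empty_iff] at hI
    apply hy0
    apply e.injective
    funext i
    have := hI (Finset.mem_univ i)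
    rw [map_zero]
    simpa using this
  let c : ℝ := (I.card : ℝ) / (Iᶜ.card : ℝ)
  have hIc : 0 < (Iᶜ.card : ℝ) := by
    have : 0 < Iᶜ.card := Finset.card_pos.2 ⟨j, Finset.mem_compl.2 hI1⟩
    exact_mod_cast this
  let w : J → ℝ := fun i => if i ∈ I then -1 else c
  let z : R := e.symm w
  have hz : e z = w := e.apply_symm_apply w
  have hz0 : logDet R z = 0 := by
    rw [split_logDet e, hz, ← Finset.sum_add_sum_compl I]
    have h1 : ∑ i ∈ I, w i = -(I.card : ℝ) := by
      rw [Finset.sum_congr rfl (fun i hi => (if_pos hi : w i = -1)), Finset.sum_const,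
        nsmul_eq_mul, mul_neg, mul_one]
    have h2 : ∑ i ∈ Iᶜ, w i = (Iᶜ.card : ℝ) * c := by
      rw [Finset.sum_congr rfl (fun i hi => (if_neg (Finset.mem_compl.1 hi) : w i = c)),
        Finset.sum_const, nsmul_eq_mul]
    rw [h1, h2]
    have h3 : (Iᶜ.card : ℝ) * c = I.card := by
      show (Iᶜ.card : ℝ) * ((I.card : ℝ) / (Iᶜ.card : ℝ)) = I.card
      field_simp
    rw [h3]
    ring
  obtain ⟨τ, β, hτ, hβ, hmem⟩ := h.exists_seq hz0
  let u : ℕ → R := fun n => exp (τ n • z + β n) * y
  have hspan : Submodule.span ℤ (Set.range lam) ≤ logLat L := by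
    rw [Submodule.span_le]
    rintro _ ⟨i, rfl⟩
    exact h.mem i
  have huL : ∀ n, u n ∈ L := fun n => (hspan (hmem n)).1 y hyL
  have hu : Tendsto u atTop (𝓝 0) := by
    have h1 : Tendsto (fun n => e (u n)) atTop (𝓝 0) := by
      rw [tendsto_pi_nhds]
      intro i
      have hui : ∀ n, e (u n) i = Real.exp (τ n * w i + e (β n) i) * e y i := by
        intro n
        simp only [u, map_mul, Pi.mul_apply, split_exp, map_add, map_smul, Pi.add_apply,
          Pi.smul_apply, smul_eq_mul, hz]
      simp only [hui]
      by_cases hi : i ∈ I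
      · have hβi : Tendsto (fun n => e (β n) i) atTop (𝓝 0) := by
          have h1 := ((continuous_apply i).comp (split_cont e)).continuousAt (x := (0 : R))
          have h2 : Tendsto (fun n => e (β n) i) atTop (𝓝 (e 0 i)) := h1.tendsto.comp hβ
          simpa using h2
        have hw : w i = -1 := if_pos hi
        have h2 : Tendsto (fun n => τ n * w i + e (β n) i) atTop atBot := by
          have h3 : w i < 0 := by rw [hw]; norm_num
          exact (hτ.atTop_mul_const_of_neg h3).atBot_add hβi
        have h3 := (Real.tendsto_exp_atBot.comp h2).mul_const (e y i)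
        rw [zero_mul] at h3
        exact h3
      · have hyi : e y i = 0 := by
          by_contra hne
          exact hi (by simp [I, hne])
        simp [hyi]
    have h2 := ((split_symm_cont e).tendsto _).comp h1
    rw [map_zero] at h2
    refine h2.congr fun n => ?_
    simp
  obtain ⟨r, hr, hgap⟩ := lattice_gap L
  have h3 : ∀ᶠ n in atTop, ‖u n‖ < r := by
    have := hu.norm
    rw [norm_zero] at this
    exact this.eventually_lt_const hr
  obtain ⟨n, hn⟩ := h3.exists
  have h4 : u n = 0 := hgap _ (huL n) hn
  apply hy0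
  have h5 : exp (-(τ n • z + β n)) * u n = y := by
    show exp (-(τ n • z + β n)) * (exp (τ n • z + β n) * y) = y
    rw [← mul_assoc, mul_comm (exp (-(τ n • z + β n))), ex_mul_neg, one_mul]
  rw [← h5, h4, mul_zero]

/-- cocompactness -/
theorem MaxRank.cocompact (h : MaxRank L lam) :
    ∃ Q : Set R, IsCompact Q ∧ (∀ q ∈ Q, ∀ j, 0 < e q j) ∧
      ∀ x : R, (∀ j, 0 < e x j) → ∃ c : ℝ, 0 < c ∧
        ∃ s ∈ Submodule.span ℤ (Set.range lam), ∃ q ∈ Q, x = c • (exp s * q) := by
  classical
  haveI := h.nontrivial
  have hJne : 0 < Fintype.card J := by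
    rw [split_card e]
    exact Module.finrank_pos
  let f : (ι → ℝ) → R := fun t => exp (∑ i, t i • lam i)
  have hf : Continuous f := by
    refine ex_cont.comp ?_
    exact continuous_finsetSum _ fun i _ => (continuous_apply i).smul continuous_const
  refine ⟨f '' (Set.Icc 0 1), isCompact_Icc.image hf, ?_, ?_⟩
  · rintro _ ⟨t, -, rfl⟩ j
    show 0 < e (exp _) j
    rw [split_exp]
    exact Real.exp_pos _
  · intro x hx
    let l : R := e.symm fun j => Real.log (e x j)
    have hl : exp l = x := by
      apply e.injective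
      funext j
      rw [split_exp]
      simp only [l, e.apply_symm_apply]
      exact Real.exp_log (hx j)
    let m : ℝ := (logDet R l) / (Fintype.card J : ℝ)
    have hm : logDet R (l - m • 1) = 0 := by
      rw [map_sub, map_smul, split_logDet e 1]
      simp only [map_one, Pi.one_apply, Finset.sum_const, Finset.card_univ, nsmul_eq_mul, mul_one,
        smul_eq_mul]
      have : (Fintype.card J : ℝ) ≠ 0 := by exact_mod_cast hJne.ne'
      show logDet R l - (logDet R l) / (Fintype.card J : ℝ) * _ = 0
      field_simp
      ring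
    obtain ⟨c, hc⟩ := h.mem_span hm
    refine ⟨Real.exp m, Real.exp_pos m, ∑ i, ⌊c i⌋ • lam i, ?_, f fun i => Int.fract (c i), ?_, ?_⟩
    · exact Submodule.sum_mem _ fun i _ =>
        Submodule.smul_mem _ _ (Submodule.subset_span ⟨i, rfl⟩)
    · exact ⟨_, ⟨fun i => Int.fract_nonneg _, fun i => (Int.fract_lt_one _).le⟩, rfl⟩
    · have h1 : ∑ i, ⌊c i⌋ • lam i + ∑ i, Int.fract (c i) • lam i = l - m • 1 := by
        rw [← hc, ← Finset.sum_add_distrib]
        refine Finset.sum_congr rfl fun i _ => ?_
        rw [← Int.cast_smul_eq_zsmul ℝ, ← add_smul, Int.floor_add_fract]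
      have h2 : exp (m • (1 : R)) = Real.exp m • 1 := by
        apply e.injective
        funext j
        rw [split_exp]
        simp
      show x = Real.exp m • (exp (∑ i, ⌊c i⌋ • lam i) * exp (∑ i, Int.fract (c i) • lam i))
      rw [← ex_add, h1]
      have h3 : Real.exp m • exp (l - m • (1 : R)) = exp (m • (1 : R)) * exp (l - m • (1 : R)) := by
        rw [h2, smul_mul_assoc, one_mul]
      rw [h3, ← ex_add, add_sub_cancel, hl]

end orthant

end Pool.Agent.Lib.Pad47bb
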