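import Pool.Agent.Lib.Pad47bb.Basic

/-!
Rational polyhedral cones: stability under intersection with rational half-spaces, sums,
and lattice automorphisms.
-/

open Set Topology

namespace Pool.Agent.Lib.Pad47bb

variable {V : Type*} [NormedAddCommGroup V] [NormedSpace ℝ V]

theorem mem_hull_finset {s : Finset V} {x : V} :
    x ∈ PointedCone.hull ℝ (s : Set V) ↔
      ∃ c : V → ℝ, (∀ a ∈ s, 0 ≤ c a) ∧ x = ∑ a ∈ s, c a • a := by
  classical
  constructor
  · intro hx
    obtain ⟨f, _, hf⟩ := Submodule.mem_span_finset.1 hx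
    refine ⟨fun a => (f a : ℝ), fun a _ => (f a).2, ?_⟩
    rw [← hf]
    rfl
  · rintro ⟨c, hc, rfl⟩
    refine Submodule.sum_mem _ fun a ha => ?_
    exact PointedCone.smul_mem _ (hc a ha) (Submodule.subset_span ha)

/-- the half-space `0 ≤ η` as a pointed cone -/
def halfSpace (η : V →L[ℝ] ℝ) : PointedCone ℝ V where
  carrier := {x | 0 ≤ η x}
  add_mem' := by
    intro x y hx hy
    simp only [mem_ofPred_eq, map_add] at *
    exact add_nonneg hx hy
  zero_mem' := by simp
  smul_mem' := by
    rintro ⟨c, hc⟩ x hx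
    have h1 : (0 : ℝ) ≤ η x := hx
    show (0 : ℝ) ≤ η (c • x)
    rw [map_smul, smul_eq_mul]
    positivity

@[simp] theorem mem_halfSpace {η : V →L[ℝ] ℝ} {x : V} : x ∈ halfSpace η ↔ 0 ≤ η x := Iff.rfl

theorem IsRatPoly.inf_halfSpace {L : Submodule ℤ V} {P : PointedCone ℝ V} (hP : IsRatPoly L P)
    (η : V →L[ℝ] ℝ) (hη : ∀ x ∈ L, ∃ n : ℤ, η x = n) : IsRatPoly L (P ⊓ halfSpace η) := by
  classical
  obtain ⟨s, hsL, rfl⟩ := hP
  let A : Finset V := s.filter (fun a => 0 < η a)
  let B : Finset V := s.filter (fun a => η a < 0)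
  let Z : Finset V := s.filter (fun a => η a = 0)
  let t : Finset V := (A ∪ Z) ∪ (A ×ˢ B).image (fun p => η p.1 • p.2 - η p.2 • p.1)
  have hA : ∀ a, a ∈ A ↔ a ∈ s ∧ 0 < η a := fun a => Finset.mem_filter
  have hB : ∀ a, a ∈ B ↔ a ∈ s ∧ η a < 0 := fun a => Finset.mem_filter
  have hZ : ∀ a, a ∈ Z ↔ a ∈ s ∧ η a = 0 := fun a => Finset.mem_filter
  have ht : ∀ a, a ∈ t ↔ (a ∈ A ∨ a ∈ Z) ∨ ∃ p ∈ A, ∃ q ∈ B, η p • q - η q • p = a := by
    intro a
    simp only [t, Finset.mem_union, Finset.mem_image, Finset.mem_product, Prod.exists]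
    constructor
    · rintro (h | ⟨p, q, ⟨hp, hq⟩, rfl⟩)
      · exact Or.inl h
      · exact Or.inr ⟨p, hp, q, hq, rfl⟩
    · rintro (h | ⟨p, hp, q, hq, rfl⟩)
      · exact Or.inl h
      · exact Or.inr ⟨p, q, ⟨hp, hq⟩, rfl⟩
  refine ⟨t, ?_, ?_⟩
  · intro a ha
    have ha' := (ht a).1 ha
    rcases ha' with (h | h) | ⟨p, hp, q, hq, rfl⟩
    · exact hsL ((hA a).1 h).1
    · exact hsL ((hZ a).1 h).1
    · have hpL : p ∈ L := hsL ((hA p).1 hp).1
      have hqL : q ∈ L := hsL ((hB q).1 hq).1
      obtain ⟨n, hn⟩ := hη p hpL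
      obtain ⟨m, hm⟩ := hη q hqL
      show η p • q - η q • p ∈ L
      rw [hn, hm, Int.cast_smul_eq_zsmul, Int.cast_smul_eq_zsmul]
      exact L.sub_mem (L.smul_mem n hqL) (L.smul_mem m hpL)
  · apply le_antisymm
    · rintro x ⟨hx, hxη⟩
      obtain ⟨c, hc, rfl⟩ := mem_hull_finset.1 hx
      have hxη' : 0 ≤ η (∑ a ∈ s, c a • a) := hxη
      -- split the sum
      have hsplit : ∀ (f : V → V), ∑ a ∈ s, f a = ∑ a ∈ A, f a + (∑ a ∈ B, f a + ∑ a ∈ Z, f a) := by
        intro f
        have h1 : s = A ∪ (B ∪ Z) := by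
          ext a
          simp only [Finset.mem_union, hA, hB, hZ]
          constructor
          · intro h
            rcases lt_trichotomy (η a) 0 with h1 | h1 | h1
            · exact Or.inr (Or.inl ⟨h, h1⟩)
            · exact Or.inr (Or.inr ⟨h, h1⟩)
            · exact Or.inl ⟨h, h1⟩
          · rintro (h | h | h) <;> exact h.1
        have hd1 : Disjoint A (B ∪ Z) := by
          rw [Finset.disjoint_left]
          intro a ha hb
          simp only [Finset.mem_union, hB, hZ] at hb
          have := ((hA a).1 ha).2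
          rcases hb with h | h <;> linarith [h.2]
        have hd2 : Disjoint B Z := by
          rw [Finset.disjoint_left]
          intro a ha hb
          have h1 := ((hB a).1 ha).2
          have h2 := ((hZ a).1 hb).2
          linarith
        conv_lhs => rw [h1]
        rw [Finset.sum_union hd1, Finset.sum_union hd2]
      have hηsum : η (∑ a ∈ s, c a • a) = ∑ a ∈ A, c a * η a + ∑ a ∈ B, c a * η a := by
        rw [hsplit, map_add, map_add, map_sum, map_sum, map_sum]
        have : ∑ a ∈ Z, η (c a • a) = 0 := by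
          refine Finset.sum_eq_zero fun a ha => ?_
          rw [map_smul, ((hZ a).1 ha).2, smul_zero]
        rw [this, add_zero]
        simp only [map_smul, smul_eq_mul]
      rw [hηsum] at hxη'
      set S : ℝ := ∑ a ∈ A, c a * η a with hS
      set T : ℝ := ∑ a ∈ B, c a * (-η a) with hT
      have hT' : ∑ a ∈ B, c a * η a = -T := by
        rw [hT, ← Finset.sum_neg_distrib]
        exact Finset.sum_congr rfl fun a _ => by ring
      rw [hT'] at hxη'
      have hcA : ∀ a ∈ A, 0 ≤ c a := fun a ha => hc a ((hA a).1 ha).1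
      have hcB : ∀ a ∈ B, 0 ≤ c a := fun a ha => hc a ((hB a).1 ha).1
      have hcZ : ∀ a ∈ Z, 0 ≤ c a := fun a ha => hc a ((hZ a).1 ha).1
      have hS0 : 0 ≤ S := Finset.sum_nonneg fun a ha =>
        mul_nonneg (hcA a ha) ((hA a).1 ha).2.le
      have hT0 : 0 ≤ T := Finset.sum_nonneg fun a ha =>
        mul_nonneg (hcB a ha) (by linarith [((hB a).1 ha).2])
      have memA : ∀ a ∈ A, a ∈ PointedCone.hull ℝ (t : Set V) := fun a ha =>
        Submodule.subset_span ((ht a).2 (Or.inl (Or.inl ha)))
      have memZ : ∀ a ∈ Z, a ∈ PointedCone.hull ℝ (t : Set V) := fun a ha =>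
        Submodule.subset_span ((ht a).2 (Or.inl (Or.inr ha)))
      have memAB : ∀ p ∈ A, ∀ q ∈ B, η p • q - η q • p ∈ PointedCone.hull ℝ (t : Set V) :=
        fun p hp q hq => Submodule.subset_span ((ht _).2 (Or.inr ⟨p, hp, q, hq, rfl⟩))
      rcases hS0.eq_or_lt with hS' | hS'
      · -- S = 0, hence T = 0
        have hT1 : T = 0 := by linarith
        have hBz : ∀ a ∈ B, c a • a = 0 := by
          intro a ha
          have h1 := (Finset.sum_eq_zero_iff_of_nonneg (fun a ha =>
            mul_nonneg (hcB a ha) (by linarith [((hB a).1 ha).2]))).1 (hT.symm.trans hT1) a ha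
          have h2 : -η a ≠ 0 := (neg_pos.2 ((hB a).1 ha).2).ne'
          have h3 : c a = 0 := by
            rcases mul_eq_zero.1 h1 with h | h
            · exact h
            · exact absurd h h2
          rw [h3, zero_smul]
        rw [hsplit, Finset.sum_eq_zero hBz, zero_add]
        refine Submodule.add_mem _ (Submodule.sum_mem _ fun a ha => ?_)
          (Submodule.sum_mem _ fun a ha => ?_)
        · exact PointedCone.smul_mem _ (hcA a ha) (memA a ha)
        · exact PointedCone.smul_mem _ (hcZ a ha) (memZ a ha)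
      · -- S > 0
        have hST : T ≤ S := by linarith
        have hdecomp : ∑ a ∈ s, c a • a = (1 - T / S) • ∑ a ∈ A, c a • a
            + (∑ p ∈ A, ∑ q ∈ B, (c p * c q / S) • (η p • q - η q • p) + ∑ a ∈ Z, c a • a) := by
          rw [hsplit]
          have e1 : ∑ p ∈ A, ∑ q ∈ B, (c p * c q / S) • (η p • q - η q • p)
              = ∑ q ∈ B, c q • q + (T / S) • ∑ p ∈ A, c p • p := by
            have : ∀ p ∈ A, ∀ q ∈ B, (c p * c q / S) • (η p • q - η q • p)
                = (c p * η p / S) • (c q • q) + (c q * (-η q) / S) • (c p • p) := by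
              intro p _ q _
              rw [smul_sub, smul_smul, smul_smul, smul_smul, smul_smul, sub_eq_add_neg, ← neg_smul]
              congr 2 <;> ring
            rw [Finset.sum_congr rfl fun p hp => Finset.sum_congr rfl fun q hq => this p hp q hq]
            simp only [Finset.sum_add_distrib]
            congr 1
            · rw [Finset.sum_comm]
              refine Finset.sum_congr rfl fun q _ => ?_
              rw [← Finset.sum_smul, ← Finset.sum_div, ← hS, div_self hS'.ne', one_smul]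
            · rw [Finset.smul_sum]
              refine Finset.sum_congr rfl fun p _ => ?_
              rw [← Finset.sum_smul, ← Finset.sum_div, ← hT]
          rw [e1, sub_smul, one_smul]
          abel
        rw [hdecomp]
        refine Submodule.add_mem _ ?_ (Submodule.add_mem _ ?_ ?_)
        · refine PointedCone.smul_mem _ ?_ (Submodule.sum_mem _ fun a ha =>
            PointedCone.smul_mem _ (hcA a ha) (memA a ha))
          rw [sub_nonneg, div_le_one hS']
          exact hST
        · refine Submodule.sum_mem _ fun p hp => Submodule.sum_mem _ fun q hq =>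
            PointedCone.smul_mem _ ?_ (memAB p hp q hq)
          exact div_nonneg (mul_nonneg (hcA p hp) (hcB q hq)) hS'.le
        · exact Submodule.sum_mem _ fun a ha => PointedCone.smul_mem _ (hcZ a ha) (memZ a ha)
    · refine Submodule.span_le.2 ?_
      intro a ha
      rcases (ht a).1 ha with (h | h) | ⟨p, hp, q, hq, rfl⟩
      · exact ⟨Submodule.subset_span ((hA a).1 h).1, ((hA a).1 h).2.le⟩
      · exact ⟨Submodule.subset_span ((hZ a).1 h).1, ((hZ a).1 h).2.ge⟩
      · constructor
        · have h1 : η p • q ∈ PointedCone.hull ℝ (s : Set V) :=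
            PointedCone.smul_mem _ ((hA p).1 hp).2.le (Submodule.subset_span ((hB q).1 hq).1)
          have h2 : (-η q) • p ∈ PointedCone.hull ℝ (s : Set V) :=
            PointedCone.smul_mem _ (by linarith [((hB q).1 hq).2])
              (Submodule.subset_span ((hA p).1 hp).1)
          have := Submodule.add_mem _ h1 h2
          rwa [neg_smul, ← sub_eq_add_neg] at this
        · show (0 : ℝ) ≤ η (η p • q - η q • p)
          rw [map_sub, map_smul, map_smul, smul_eq_mul, smul_eq_mul]
          linarith [mul_comm (η p) (η q)]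

theorem IsRatPoly.inf_halfSpaces {L : Submodule ℤ V} {P : PointedCone ℝ V} (hP : IsRatPoly L P)
    {ι : Type*} (t : Finset ι) (η : ι → V →L[ℝ] ℝ) (hη : ∀ i ∈ t, ∀ x ∈ L, ∃ n : ℤ, η i x = n) :
    IsRatPoly L (P ⊓ ⨅ i ∈ t, halfSpace (η i)) := by
  classical
  induction t using Finset.induction_on with
  | empty => simpa using hP
  | insert a t ha ih =>
    have h1 := ih fun i hi => hη i (Finset.mem_insert_of_mem hi)
    have h2 := h1.inf_halfSpace (η a) (hη a (Finset.mem_insert_self a t))
    rw [Finset.iInf_insert]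
    have : P ⊓ (halfSpace (η a) ⊓ ⨅ i ∈ t, halfSpace (η i)) =
        P ⊓ (⨅ i ∈ t, halfSpace (η i)) ⊓ halfSpace (η a) := by
      rw [inf_assoc, inf_comm (halfSpace (η a))]
    rw [this]
    exact h2

theorem IsRatPoly.bot (L : Submodule ℤ V) : IsRatPoly L (⊥ : PointedCone ℝ V) :=
  ⟨∅, by simp, by simp⟩

theorem IsRatPoly.sup {L : Submodule ℤ V} {P Q : PointedCone ℝ V} (hP : IsRatPoly L P)
    (hQ : IsRatPoly L Q) : IsRatPoly L (P ⊔ Q) := by
  classical
  obtain ⟨s, hs, rfl⟩ := hP
  obtain ⟨t, ht, rfl⟩ := hQ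
  refine ⟨s ∪ t, ?_, ?_⟩
  · rw [Finset.coe_union]; exact union_subset hs ht
  · rw [Finset.coe_union]; exact (Submodule.span_union _ _).symm

theorem IsRatPoly.biSup {L : Submodule ℤ V} {ι : Type*} (t : Finset ι)
    (P : ι → PointedCone ℝ V) (hP : ∀ i ∈ t, IsRatPoly L (P i)) :
    IsRatPoly L (⨆ i ∈ t, P i) := by
  classical
  induction t using Finset.induction_on with
  | empty => simpa using IsRatPoly.bot L
  | insert a t ha ih =>
    rw [Finset.iSup_insert]
    exact (hP a (Finset.mem_insert_self a t)).sup (ih fun i hi => hP i (Finset.mem_insert_of_mem hi))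

/-- the image of a pointed cone under a linear automorphism -/
def imageCone (g : V ≃ₗ[ℝ] V) (P : PointedCone ℝ V) : PointedCone ℝ V :=
  PointedCone.map (g : V →ₗ[ℝ] V) P

theorem coe_imageCone (g : V ≃ₗ[ℝ] V) (P : PointedCone ℝ V) :
    (imageCone g P : Set V) = (g : V → V) '' (P : Set V) := rfl

theorem mem_imageCone {g : V ≃ₗ[ℝ] V} {P : PointedCone ℝ V} {x : V} :
    x ∈ imageCone g P ↔ ∃ y ∈ P, g y = x := Iff.rfl

theorem imageCone_le {g : V ≃ₗ[ℝ] V} {P Q : PointedCone ℝ V} (h : ∀ x ∈ P, g x ∈ Q) :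
    imageCone g P ≤ Q := by
  rintro _ ⟨x, hx, rfl⟩
  exact h x hx

theorem IsRatPoly.image {L : Submodule ℤ V} {P : PointedCone ℝ V} (hP : IsRatPoly L P)
    (g : V ≃ₗ[ℝ] V) (hg : ∀ x ∈ L, g x ∈ L) : IsRatPoly L (imageCone g P) := by
  classical
  obtain ⟨s, hs, rfl⟩ := hP
  refine ⟨s.image g, ?_, ?_⟩
  · intro x hx
    obtain ⟨y, hy, rfl⟩ := Finset.mem_image.1 hx
    exact hg y (hs hy)
  · rw [Finset.coe_image]
    exact Submodule.map_span _ _

end Pool.Agent.Lib.Pad47bb
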