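import Pool.Agent.Lib.Pad47bb.MaxRankCore

/-!
A finite-dimensional commutative real algebra carrying a multiplicative group of maximal rank that
preserves a lattice and a closed salient cone is isomorphic to a product of copies of the reals.
-/

open NormedSpace Filter Topology

namespace Pool.Agent.Lib.Pad47bb

section split

variable {R : Type*} [NormedCommRing R] [NormedAlgebra ℝ R] [FiniteDimensional ℝ R]

theorem alg_exp (φ : R →ₐ[ℝ] ℂ) (x : R) : φ (exp x) = Complex.exp (φ x) := by
  letI : NormedAlgebra ℚ R := NormedAlgebra.restrictScalars ℚ ℝ R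
  haveI : CompleteSpace R := FiniteDimensional.complete ℝ R
  have hc : Continuous φ := φ.toLinearMap.continuous_of_finiteDimensional
  rw [Complex.exp_eq_exp_ℂ]
  exact map_exp φ hc x

theorem exists_split (hred : ∀ ν : R, ν ^ 2 = 0 → ν = 0)
    (hinj : ∀ κ : R, exp κ = 1 → κ = 0) :
    ∃ (J : Type) (_ : Fintype J), Nonempty (R ≃ₐ[ℝ] (J → ℝ)) := by
  classical
  haveI : IsArtinianRing R := IsArtinianRing.of_finite ℝ R
  haveI : IsReduced R := (isReduced_iff_pow_one_lt 2 one_lt_two).2 hred
  let e₀ : R ≃ₐ[ℝ] (∀ I : MaximalSpectrum R, R ⧸ I.asIdeal) :=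
    (IsArtinianRing.equivPi R).restrictScalars ℝ
  have he₀ : ∀ x I, e₀ x I = Ideal.Quotient.mk I.asIdeal x := fun x I => rfl
  haveI : ∀ I : MaximalSpectrum R, I.asIdeal.IsMaximal := fun I => I.isMaximal
  letI : ∀ I : MaximalSpectrum R, Field (R ⧸ I.asIdeal) := fun I => Ideal.Quotient.field _
  have hor : ∀ I : MaximalSpectrum R, Nonempty ((R ⧸ I.asIdeal) ≃ₐ[ℝ] ℝ) ∨
      Nonempty ((R ⧸ I.asIdeal) ≃ₐ[ℝ] ℂ) := fun I =>
    Real.nonempty_algEquiv_or (R ⧸ I.asIdeal)
  have hreal : ∀ I : MaximalSpectrum R, Nonempty ((R ⧸ I.asIdeal) ≃ₐ[ℝ] ℝ) := by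
    intro I
    rcases hor I with h | ⟨⟨f⟩⟩
    · exact h
    · exfalso
      -- characters of `R`
      have hchar : ∀ J : MaximalSpectrum R, ∃ φ : (R ⧸ J.asIdeal) →ₐ[ℝ] ℂ,
          Function.Injective φ := by
        intro J
        rcases hor J with ⟨⟨g⟩⟩ | ⟨⟨g⟩⟩
        · refine ⟨(Algebra.ofId ℝ ℂ).comp (g : (R ⧸ J.asIdeal) →ₐ[ℝ] ℝ), ?_⟩
          exact (Algebra.ofId ℝ ℂ).toRingHom.injective.comp g.injective
        · exact ⟨g, g.injective⟩
      choose φ hφ using hchar
      let κ : R := e₀.symm (Pi.single I (f.symm (2 * Real.pi * Complex.I)))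
      have hκ : e₀ κ = Pi.single I (f.symm (2 * Real.pi * Complex.I)) := e₀.apply_symm_apply _
      have h1 : exp κ = 1 := by
        apply e₀.injective
        funext J
        apply hφ J
        let ψ : R →ₐ[ℝ] ℂ := (φ J).comp (Ideal.Quotient.mkₐ ℝ J.asIdeal)
        have h2 : φ J (e₀ (exp κ) J) = ψ (exp κ) := rfl
        have h3 : ψ κ = φ J (e₀ κ J) := rfl
        rw [h2, alg_exp, h3, hκ, map_one, Pi.one_apply, map_one]
        by_cases hJ : J = I
        · subst hJ
          rw [Pi.single_eq_same]
          -- compare the embedding with `f`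
          have h4 : ∀ z : ℂ, (φ J (f.symm z)) = z ∨ (φ J (f.symm z)) = starRingEnd ℂ z := by
            intro z
            let χ : ℂ →ₐ[ℝ] ℂ := (φ J).comp (f.symm : ℂ →ₐ[ℝ] (R ⧸ J.asIdeal))
            have h5 : χ Complex.I = Complex.I ∨ χ Complex.I = -Complex.I := by
              have h6 : χ Complex.I * χ Complex.I = -1 := by
                rw [← map_mul, Complex.I_mul_I, map_neg, map_one]
              have h7 : (χ Complex.I - Complex.I) * (χ Complex.I + Complex.I) = 0 := by
                ring_nf
                rw [pow_two, h6, Complex.I_sq]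
                ring
              rcases mul_eq_zero.1 h7 with h | h
              · exact Or.inl (sub_eq_zero.1 h)
              · exact Or.inr (eq_neg_of_add_eq_zero_left h)
            have h8 : χ z = (z.re : ℂ) + (z.im : ℂ) * χ Complex.I := by
              conv_lhs => rw [← Complex.re_add_im z]
              rw [map_add, map_mul]
              have h9 : ∀ r : ℝ, χ (r : ℂ) = (r : ℂ) := fun r => χ.commutes r
              rw [h9, h9]
            have h10 : φ J (f.symm z) = χ z := rfl
            rw [h10, h8]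
            rcases h5 with h | h
            · left
              rw [h, Complex.re_add_im]
            · right
              rw [h]
              apply Complex.ext <;> simp
          rcases h4 (2 * Real.pi * Complex.I) with h | h
          · rw [h, Complex.exp_two_pi_mul_I]
          · rw [h]
            have h5 : (starRingEnd ℂ) (2 * Real.pi * Complex.I) = -(2 * Real.pi * Complex.I) := by
              rw [map_mul, map_mul, Complex.conj_I, Complex.conj_ofReal, map_ofNat]
              ring
            rw [h5, Complex.exp_neg, Complex.exp_two_pi_mul_I, inv_one]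
        · rw [Pi.single_eq_of_ne hJ, map_zero, Complex.exp_zero]
      have h2 := hinj κ h1
      rw [h2, map_zero] at hκ
      have h3 := congrFun hκ I
      rw [Pi.single_eq_same, Pi.zero_apply] at h3
      have h4 : (2 * Real.pi * Complex.I : ℂ) = 0 := by
        have := congrArg f h3.symm
        rwa [f.apply_symm_apply, map_zero] at this
      exact Complex.two_pi_I_ne_zero h4
  letI : Fintype (MaximalSpectrum R) := Fintype.ofFinite _
  let n := Fintype.card (MaximalSpectrum R)
  let g : ∀ I : MaximalSpectrum R, (R ⧸ I.asIdeal) ≃ₐ[ℝ] ℝ := fun I => (hreal I).some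
  let E₁ : R ≃ₐ[ℝ] (MaximalSpectrum R → ℝ) := e₀.trans (AlgEquiv.piCongrRight g)
  let E₂ : (MaximalSpectrum R → ℝ) ≃ₐ[ℝ] (Fin n → ℝ) :=
    AlgEquiv.piCongrLeft' ℝ (fun _ => ℝ) (Fintype.equivFin (MaximalSpectrum R))
  exact ⟨Fin n, inferInstance, ⟨E₁.trans E₂⟩⟩

end split

end Pool.Agent.Lib.Pad47bb
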